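import Pool.Agent.W302.SP.Closed

set_option autoImplicit false

/-!
The involution `al` cannot be realised by a linear map.
-/

namespace W302.SP

variable {E : Type*} [NormedAddCommGroup E] [InnerProductSpace ℝ E] [FiniteDimensional ℝ E]

/-- functional data of a realisation of the 28 facets and their faces -/
def Realises (y : Fin 10 → E) : Prop :=
  ∀ (G : Fin 28) (N : Set (Fin 10)), (∀ v ∈ N, mem v G = true) → N.Nonempty →
    ∃ (l : E →L[ℝ] ℝ) (m : ℝ), ∀ v, l (y v) ≤ m ∧ (l (y v) = m ↔ v ∈ N)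

theorem ridge (hfin : Module.finrank ℝ E = 4) (y : Fin 10 → E) (hN : Realises y)
    (G G' : Fin 28) (r1 r2 r3 a b x : Fin 10)
    (hG : ∀ v, mem v G = true ↔ v = r1 ∨ v = r2 ∨ v = r3 ∨ v = a)
    (hG' : ∀ v, mem v G' = true ↔ v = r1 ∨ v = r2 ∨ v = r3 ∨ v = b)
    (hb : mem b G = false) (ha : mem a G' = false) (hx : mem x G = false) (hx' : mem x G' = false)
    (h12 : r1 ≠ r2) (h13 : r1 ≠ r3) (h23 : r2 ≠ r3) (h1a : r1 ≠ a) (h2a : r2 ≠ a) (h3a : r3 ≠ a) :
    ∃ s t c1 c2 c3 : ℝ, 0 < s ∧ 0 < t ∧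
      y x = s • y a + t • y b + c1 • y r1 + c2 • y r2 + c3 • y r3 := by
  -- functionals
  have hGmem : ∀ v, v = r1 ∨ v = r2 ∨ v = r3 ∨ v = a → mem v G = true := fun v => (hG v).2
  obtain ⟨lG, mG, hlG⟩ := hN G {v | mem v G = true} (fun v hv => hv) ⟨r1, (hG r1).2 (Or.inl rfl)⟩
  obtain ⟨lG', mG', hlG'⟩ := hN G' {v | mem v G' = true} (fun v hv => hv)
    ⟨r1, (hG' r1).2 (Or.inl rfl)⟩
  obtain ⟨l1, m1, hl1⟩ := hN G {v | v = r2 ∨ v = r3 ∨ v = a}
    (fun v hv => hGmem v (Or.inr hv)) ⟨r2, Or.inl rfl⟩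
  obtain ⟨l2, m2, hl2⟩ := hN G {v | v = r1 ∨ v = r3 ∨ v = a}
    (fun v hv => hGmem v (by rcases hv with h | h | h <;> tauto)) ⟨r1, Or.inl rfl⟩
  obtain ⟨l3, m3, hl3⟩ := hN G {v | v = r1 ∨ v = r2 ∨ v = a}
    (fun v hv => hGmem v (by rcases hv with h | h | h <;> tauto)) ⟨r1, Or.inl rfl⟩
  have lt_of : ∀ (l : E →L[ℝ] ℝ) (m : ℝ) (N : Set (Fin 10)),
      (∀ v, l (y v) ≤ m ∧ (l (y v) = m ↔ v ∈ N)) → ∀ v, v ∉ N → 0 < m - l (y v) := by
    intro l m N h v hv
    have h1 := (h v).1
    have h2 : l (y v) ≠ m := fun h3 => hv ((h v).2.1 h3)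
    have := lt_of_le_of_ne h1 h2
    linarith
  have eq_of : ∀ (l : E →L[ℝ] ℝ) (m : ℝ) (N : Set (Fin 10)),
      (∀ v, l (y v) ≤ m ∧ (l (y v) = m ↔ v ∈ N)) → ∀ v, v ∈ N → m - l (y v) = 0 := by
    intro l m N h v hv
    rw [(h v).2.2 hv, sub_self]
  -- values
  have Ga := eq_of _ _ _ hlG a ((hG a).2 (by tauto))
  have G1 := eq_of _ _ _ hlG r1 ((hG r1).2 (by tauto))
  have G2 := eq_of _ _ _ hlG r2 ((hG r2).2 (by tauto))
  have G3 := eq_of _ _ _ hlG r3 ((hG r3).2 (by tauto))
  have Gb := lt_of _ _ _ hlG b (by intro h; rw [show mem b G = true from h] at hb; cases hb)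
  have Gx := lt_of _ _ _ hlG x (by intro h; rw [show mem x G = true from h] at hx; cases hx)
  have G'b := eq_of _ _ _ hlG' b ((hG' b).2 (by tauto))
  have G'1 := eq_of _ _ _ hlG' r1 ((hG' r1).2 (by tauto))
  have G'2 := eq_of _ _ _ hlG' r2 ((hG' r2).2 (by tauto))
  have G'3 := eq_of _ _ _ hlG' r3 ((hG' r3).2 (by tauto))
  have G'a := lt_of _ _ _ hlG' a (by intro h; rw [show mem a G' = true from h] at ha; cases ha)
  have G'x := lt_of _ _ _ hlG' x (by intro h; rw [show mem x G' = true from h] at hx'; cases hx')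
  have A1 := lt_of _ _ _ hl1 r1 (by simp [h12, h13, h1a])
  have A1a := eq_of _ _ _ hl1 a (by simp)
  have A12 := eq_of _ _ _ hl1 r2 (by simp)
  have A13 := eq_of _ _ _ hl1 r3 (by simp)
  have A2 := lt_of _ _ _ hl2 r2 (by simp [h12.symm, h23, h2a])
  have A2a := eq_of _ _ _ hl2 a (by simp)
  have A21 := eq_of _ _ _ hl2 r1 (by simp)
  have A23 := eq_of _ _ _ hl2 r3 (by simp)
  have A3 := lt_of _ _ _ hl3 r3 (by simp [h13.symm, h23.symm, h3a])
  have A3a := eq_of _ _ _ hl3 a (by simp)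
  have A31 := eq_of _ _ _ hl3 r1 (by simp)
  have A32 := eq_of _ _ _ hl3 r2 (by simp)
  -- the family
  set w : Fin 10 → E × ℝ := fun v => (y v, 1) with hw
  have hLI : LinearIndependent ℝ ![w a, w b, w r1, w r2, w r3] := by
    rw [Fintype.linearIndependent_iff]
    intro g hg
    rw [Fin.sum_univ_five] at hg
    simp only [hw, Matrix.cons_val] at hg
    have e1 : g 0 • y a + g 1 • y b + g 2 • y r1 + g 3 • y r2 + g 4 • y r3 = 0 := by
      have := congrArg Prod.fst hg
      simpa using this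
    have e2 : g 0 + g 1 + g 2 + g 3 + g 4 = 0 := by
      have := congrArg Prod.snd hg
      simpa using this
    have app : ∀ (l : E →L[ℝ] ℝ) (m : ℝ), g 0 * (m - l (y a)) + g 1 * (m - l (y b)) +
        g 2 * (m - l (y r1)) + g 3 * (m - l (y r2)) + g 4 * (m - l (y r3)) = 0 := by
      intro l m
      have e3 := congrArg l e1
      simp only [map_add, map_smul, smul_eq_mul, map_zero] at e3
      linear_combination m * e2 - e3
    have g1 : g 1 = 0 := by
      have := app lG mG
      rw [Ga, G1, G2, G3] at this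
      have h2 : g 1 * (mG - lG (y b)) = 0 := by linarith
      rcases mul_eq_zero.1 h2 with h3 | h3
      · exact h3
      · exact absurd h3 (ne_of_gt Gb)
    have g0 : g 0 = 0 := by
      have := app lG' mG'
      rw [G'b, G'1, G'2, G'3] at this
      have h2 : g 0 * (mG' - lG' (y a)) = 0 := by linarith
      rcases mul_eq_zero.1 h2 with h3 | h3
      · exact h3
      · exact absurd h3 (ne_of_gt G'a)
    have g2 : g 2 = 0 := by
      have := app l1 m1
      rw [A1a, A12, A13, g1] at this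
      have h2 : g 2 * (m1 - l1 (y r1)) = 0 := by linarith
      rcases mul_eq_zero.1 h2 with h3 | h3
      · exact h3
      · exact absurd h3 (ne_of_gt A1)
    have g3 : g 3 = 0 := by
      have := app l2 m2
      rw [A2a, A21, A23, g1] at this
      have h2 : g 3 * (m2 - l2 (y r2)) = 0 := by linarith
      rcases mul_eq_zero.1 h2 with h3 | h3
      · exact h3
      · exact absurd h3 (ne_of_gt A2)
    have g4 : g 4 = 0 := by
      have := app l3 m3
      rw [A3a, A31, A32, g1] at this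
      have h2 : g 4 * (m3 - l3 (y r3)) = 0 := by linarith
      rcases mul_eq_zero.1 h2 with h3 | h3
      · exact h3
      · exact absurd h3 (ne_of_gt A3)
    intro i
    fin_cases i
    · exact g0
    · exact g1
    · exact g2
    · exact g3
    · exact g4
  have hspan := hLI.span_eq_top_of_card_eq_finrank' (by
    rw [Fintype.card_fin, Module.finrank_prod, hfin, Module.finrank_self])
  have hxm : w x ∈ Submodule.span ℝ (Set.range ![w a, w b, w r1, w r2, w r3]) := by
    rw [hspan]; trivial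
  obtain ⟨c, hc⟩ := (Submodule.mem_span_range_iff_exists_fun ℝ).1 hxm
  rw [Fin.sum_univ_five] at hc
  simp only [hw, Matrix.cons_val] at hc
  have e1 : c 0 • y a + c 1 • y b + c 2 • y r1 + c 3 • y r2 + c 4 • y r3 = y x := by
    have := congrArg Prod.fst hc
    simpa using this
  have e2 : c 0 + c 1 + c 2 + c 3 + c 4 = 1 := by
    have := congrArg Prod.snd hc
    simpa using this
  have app : ∀ (l : E →L[ℝ] ℝ) (m : ℝ), c 0 * (m - l (y a)) + c 1 * (m - l (y b)) +
      c 2 * (m - l (y r1)) + c 3 * (m - l (y r2)) + c 4 * (m - l (y r3)) = m - l (y x) := by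
    intro l m
    have e3 := congrArg l e1
    simp only [map_add, map_smul, smul_eq_mul] at e3
    linear_combination m * e2 - e3
  refine ⟨c 0, c 1, c 2, c 3, c 4, ?_, ?_, e1.symm⟩
  · have := app lG' mG'
    rw [G'b, G'1, G'2, G'3] at this
    have h2 : 0 < c 0 * (mG' - lG' (y a)) := by linarith
    exact (pos_iff_pos_of_mul_pos h2).2 G'a
  · have := app lG mG
    rw [Ga, G1, G2, G3] at this
    have h2 : 0 < c 1 * (mG - lG (y b)) := by linarith
    exact (pos_iff_pos_of_mul_pos h2).2 Gb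

theorem f12 : ∀ v : Fin 10, mem v 12 = true ↔ v = 1 ∨ v = 4 ∨ v = 8 ∨ v = 2 := by decide +kernel
theorem f13 : ∀ v : Fin 10, mem v 13 = true ↔ v = 1 ∨ v = 4 ∨ v = 8 ∨ v = 3 := by decide +kernel
theorem f2a : ∀ v : Fin 10, mem v 2 = true ↔ v = 0 ∨ v = 3 ∨ v = 5 ∨ v = 2 := by decide +kernel
theorem f3 : ∀ v : Fin 10, mem v 3 = true ↔ v = 0 ∨ v = 3 ∨ v = 5 ∨ v = 4 := by decide +kernel
theorem f2b : ∀ v : Fin 10, mem v 2 = true ↔ v = 0 ∨ v = 2 ∨ v = 5 ∨ v = 3 := by decide +kernel
theorem f17 : ∀ v : Fin 10, mem v 17 = true ↔ v = 0 ∨ v = 2 ∨ v = 5 ∨ v = 9 := by decide +kernel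

theorem no_realisation (hfin : Module.finrank ℝ E = 4) (y : Fin 10 → E) (A : E →ₗ[ℝ] E)
    (hA : ∀ v, A (y v) = y (al v)) (hN : Realises y) : False := by
  obtain ⟨s1, t1, p1, p2, p3, hs1, ht1, h1⟩ := ridge hfin y hN 12 13 1 4 8 2 3 0 f12 f13
    (by decide +kernel) (by decide +kernel) (by decide +kernel) (by decide +kernel)
    (by decide) (by decide) (by decide) (by decide) (by decide) (by decide)
  obtain ⟨s2, t2, q1, q2, q3, hs2, ht2, h2⟩ := ridge hfin y hN 2 3 0 3 5 2 4 1 f2a f3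
    (by decide +kernel) (by decide +kernel) (by decide +kernel) (by decide +kernel)
    (by decide) (by decide) (by decide) (by decide) (by decide) (by decide)
  obtain ⟨s3, t3, u1, u2, u3, hs3, ht3, h3⟩ := ridge hfin y hN 2 17 0 2 5 3 9 1 f2b f17
    (by decide +kernel) (by decide +kernel) (by decide +kernel) (by decide +kernel)
    (by decide) (by decide) (by decide) (by decide) (by decide) (by decide)
  have k1 := congrArg A h1
  have k2 := congrArg A h2
  have k3 := congrArg A h3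
  simp only [map_add, map_smul, hA] at k1 k2 k3
  have a0 : al 0 = 0 := rfl
  have a1 : al 1 = 1 := rfl
  have a2 : al 2 = 6 := rfl
  have a3 : al 3 = 7 := rfl
  have a4 : al 4 = 9 := rfl
  have a5' : al 5 = 5 := rfl
  have a8 : al 8 = 8 := rfl
  have a9 : al 9 = 4 := rfl
  rw [a0, a2, a3, a1, a4, a8] at k1
  rw [a1, a2, a4, a0, a3, a5'] at k2
  rw [a1, a3, a9, a0, a2, a5'] at k3
  -- differences
  have R1 : s1 • (y 2 - y 6) + t1 • (y 3 - y 7) + p2 • (y 4 - y 9) = 0 := by
    linear_combination (norm := module) k1 - h1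
  have R2 : s2 • (y 2 - y 6) + t2 • (y 4 - y 9) + q2 • (y 3 - y 7) = 0 := by
    linear_combination (norm := module) k2 - h2
  have R3 : s3 • (y 3 - y 7) - t3 • (y 4 - y 9) + u2 • (y 2 - y 6) = 0 := by
    linear_combination (norm := module) k3 - h3
  -- independence
  have hind : ∀ p q : ℝ, p • (y 2 - y 6) + q • (y 4 - y 9) = 0 → p = 0 ∧ q = 0 := by
    intro p q hpq
    obtain ⟨l, m, hl⟩ := hN 23 {v | mem v 23 = true} (fun v hv => hv)
      ⟨2, show mem 2 23 = true by decide +kernel⟩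
    have l2 : l (y 2) = m := (hl 2).2.2 (show mem 2 23 = true by decide +kernel)
    have l4 : l (y 4) = m := (hl 4).2.2 (show mem 4 23 = true by decide +kernel)
    have l9 : l (y 9) = m := (hl 9).2.2 (show mem 9 23 = true by decide +kernel)
    have l6 : l (y 6) < m := by
      refine lt_of_le_of_ne (hl 6).1 (fun h => ?_)
      have h6 : mem 6 23 = true := (hl 6).2.1 h
      exact absurd h6 (by decide +kernel)
    have e := congrArg l hpq
    simp only [map_add, map_smul, map_sub, smul_eq_mul, map_zero, l2, l4, l9] at e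
    have hp : p = 0 := by
      have h5 : p * (m - l (y 6)) = 0 := by linarith
      rcases mul_eq_zero.1 h5 with h6 | h6
      · exact h6
      · linarith
    refine ⟨hp, ?_⟩
    rw [hp, zero_smul, zero_add] at hpq
    obtain ⟨l', m', hl'⟩ := hN 12 {v | mem v 12 = true} (fun v hv => hv)
      ⟨2, show mem 2 12 = true by decide +kernel⟩
    have l4' : l' (y 4) = m' := (hl' 4).2.2 (show mem 4 12 = true by decide +kernel)
    have l9' : l' (y 9) < m' := by
      refine lt_of_le_of_ne (hl' 9).1 (fun h => ?_)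
      have h6 : mem 9 12 = true := (hl' 9).2.1 h
      exact absurd h6 (by decide +kernel)
    have e' := congrArg l' hpq
    simp only [map_smul, map_sub, smul_eq_mul, map_zero, l4'] at e'
    rcases mul_eq_zero.1 e' with h6 | h6
    · exact h6
    · linarith
  obtain ⟨x1, x2⟩ := hind (t1 * s2 - q2 * s1) (t1 * t2 - q2 * p2) (by
    linear_combination (norm := module) t1 • R2 - q2 • R1)
  obtain ⟨_, x4⟩ := hind (t1 * u2 - s3 * s1) (- s3 * p2 - t1 * t3) (by
    linear_combination (norm := module) t1 • R3 - s3 • R1)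
  have hq2 : 0 < q2 := by
    have h5 : 0 < q2 * s1 := by
      have := mul_pos ht1 hs2
      linarith
    exact (pos_iff_pos_of_mul_pos h5).2 hs1
  have hp2 : 0 < p2 := by
    have h5 : 0 < p2 * q2 := by
      have := mul_pos ht1 ht2
      linarith
    exact (pos_iff_pos_of_mul_pos h5).2 hq2
  have h6 := mul_pos hs3 hp2
  have h7 := mul_pos ht1 ht3
  linarith

end W302.SP
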