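import Pool.Agent.W302.SP.Geo

set_option autoImplicit false
set_option linter.unusedSectionVars false

/-!
A self-polar polytope `Q` (`Q° = U Q`) has an anti-automorphism `ps` of its face poset with
`ps (ps G) = {z ∈ Q | U (U z) ∈ G}`.
-/

namespace W302.SP

variable {E : Type*} [NormedAddCommGroup E] [InnerProductSpace ℝ E] [FiniteDimensional ℝ E]

structure SelfPolar (Q : Set E) (U : E ≃ₗᵢ[ℝ] E) : Prop where
  zero : (0 : E) ∈ interior Q
  closed : IsClosed Q
  conv : Convex ℝ Q
  pol : {y : E | ∀ x ∈ Q, inner ℝ x y ≤ (1 : ℝ)} = U '' Q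

namespace SelfPolar

variable {Q : Set E} {U : E ≃ₗᵢ[ℝ] E} (h : SelfPolar Q U)

include h

theorem le_one {x z : E} (hx : x ∈ Q) (hz : z ∈ Q) : inner ℝ x (U z) ≤ (1 : ℝ) := by
  have : U z ∈ {y : E | ∀ x ∈ Q, inner ℝ x y ≤ (1 : ℝ)} := by
    rw [h.pol]
    exact ⟨z, hz, rfl⟩
  exact this x hx

theorem zero_mem : (0 : E) ∈ Q := interior_subset h.zero

theorem mem_of {x : E} (hx : ∀ z ∈ Q, inner ℝ x (U z) ≤ (1 : ℝ)) : x ∈ Q := by
  by_contra hxQ
  obtain ⟨f, u, hf, hu⟩ := geometric_hahn_banach_closed_point h.conv h.closed hxQ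
  have hu0 : 0 < u := by
    have := hf 0 h.zero_mem
    simpa using this
  set y : E := (InnerProductSpace.toDual ℝ E).symm f with hy
  have hfy : ∀ x, inner ℝ y x = f x := by
    intro x
    rw [hy]
    exact InnerProductSpace.toDual_symm_apply
  have hmem : u⁻¹ • y ∈ {y : E | ∀ x ∈ Q, inner ℝ x y ≤ (1 : ℝ)} := by
    intro x hx
    rw [inner_smul_right, real_inner_comm, hfy]
    have := hf x hx
    rw [inv_mul_le_iff₀ hu0]
    linarith
  rw [h.pol] at hmem
  obtain ⟨z, hz, hzy⟩ := hmem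
  have h1 := hx z hz
  rw [hzy, inner_smul_right, real_inner_comm, hfy, inv_mul_le_iff₀ hu0] at h1
  linarith

theorem UU_mem (x : E) : U (U x) ∈ Q ↔ x ∈ Q := by
  have hfwd : ∀ x ∈ Q, U (U x) ∈ Q := by
    intro x hx
    apply h.mem_of
    intro z hz
    rw [LinearIsometryEquiv.inner_map_map, real_inner_comm]
    exact h.le_one hz hx
  constructor
  · intro hx
    apply h.mem_of
    intro z hz
    have h1 := h.le_one hx (hfwd z hz)
    rw [LinearIsometryEquiv.inner_map_map, LinearIsometryEquiv.inner_map_map] at h1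
    exact h1
  · exact hfwd x

theorem inner_swap (x z : E) : inner ℝ x (U z) = (inner ℝ (U (U z)) (U x) : ℝ) := by
  rw [LinearIsometryEquiv.inner_map_map, real_inner_comm]

/-- a proper face is cut out by a point on the second side -/
theorem face_right {G : Set E} (hG : IsExposed ℝ Q G) (hne : G.Nonempty) (hpr : G ≠ Q) :
    ∃ z ∈ Q, G = {x ∈ Q | inner ℝ x (U z) = (1 : ℝ)} := by
  obtain ⟨l, m, hl, hGm⟩ := exists_of_exposed hG hne
  have hm0 : 0 ≤ m := by
    have := hl 0 h.zero_mem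
    simpa using this
  have hm : 0 < m := by
    rcases lt_or_eq_of_le hm0 with h1 | h1
    · exact h1
    · exfalso
      apply hpr
      have hl0 : ∀ x, l x = 0 := by
        -- `l ≤ 0` near `0`
        have hn : Q ∈ nhds (0 : E) := mem_interior_iff_mem_nhds.1 h.zero
        intro x
        have hc : Filter.Tendsto (fun t : ℝ => t • x) (nhdsWithin 0 (Set.Ioi 0)) (nhds 0) := by
          have : Filter.Tendsto (fun t : ℝ => t • x) (nhds 0) (nhds ((0 : ℝ) • x)) :=
            Continuous.tendsto (by fun_prop) 0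
          rw [zero_smul] at this
          exact this.mono_left nhdsWithin_le_nhds
        have hc' : Filter.Tendsto (fun t : ℝ => t • (-x)) (nhdsWithin 0 (Set.Ioi 0)) (nhds 0) := by
          have : Filter.Tendsto (fun t : ℝ => t • (-x)) (nhds 0) (nhds ((0 : ℝ) • (-x))) :=
            Continuous.tendsto (by fun_prop) 0
          rw [zero_smul] at this
          exact this.mono_left nhdsWithin_le_nhds
        obtain ⟨t, ⟨ht1, ht2⟩, ht0⟩ := (((hc.eventually hn).and (hc'.eventually hn)).and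
          (self_mem_nhdsWithin : Set.Ioi (0 : ℝ) ∈ nhdsWithin 0 (Set.Ioi 0))).exists
        have ht : (0 : ℝ) < t := ht0
        have e1 := hl _ ht1
        have e2 := hl _ ht2
        rw [map_smul, smul_eq_mul, ← h1] at e1
        rw [map_smul, map_neg, smul_eq_mul, ← h1] at e2
        have e3 : l x ≤ 0 := by
          by_contra hc
          push Not at hc
          have := mul_pos ht hc
          linarith
        have e4 : 0 ≤ l x := by
          by_contra hc
          push Not at hc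
          have := mul_pos ht (neg_pos.2 hc)
          linarith
        exact le_antisymm e3 e4
      rw [hGm]
      ext x
      constructor
      · exact fun hx => hx.1
      · exact fun hx => ⟨hx, by rw [hl0, h1]⟩
  set y : E := (InnerProductSpace.toDual ℝ E).symm l with hy
  have hfy : ∀ x, inner ℝ y x = l x := by
    intro x
    rw [hy]
    exact InnerProductSpace.toDual_symm_apply
  have hmem : m⁻¹ • y ∈ {y : E | ∀ x ∈ Q, inner ℝ x y ≤ (1 : ℝ)} := by
    intro x hx
    rw [inner_smul_right, real_inner_comm, hfy, inv_mul_le_iff₀ hm]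
    have := hl x hx
    linarith
  rw [h.pol] at hmem
  obtain ⟨z, hz, hzy⟩ := hmem
  refine ⟨z, hz, ?_⟩
  rw [hGm]
  ext x
  constructor
  · rintro ⟨hx, hxm⟩
    refine ⟨hx, ?_⟩
    rw [hzy, inner_smul_right, real_inner_comm, hfy, hxm]
    field_simp
  · rintro ⟨hx, hxm⟩
    refine ⟨hx, ?_⟩
    rw [hzy, inner_smul_right, real_inner_comm, hfy] at hxm
    field_simp at hxm
    linarith

theorem face_left {G : Set E} (hG : IsExposed ℝ Q G) (hne : G.Nonempty) (hpr : G ≠ Q) :
    ∃ x ∈ Q, G = {z ∈ Q | inner ℝ x (U z) = (1 : ℝ)} := by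
  obtain ⟨z, hz, hGz⟩ := h.face_right hG hne hpr
  refine ⟨U (U z), (h.UU_mem z).2 hz, ?_⟩
  rw [hGz]
  ext w
  simp only [Set.mem_setOf_eq]
  rw [h.inner_swap w z]

end SelfPolar

/-- the dual face, first version -/
def psi (Q : Set E) (U : E ≃ₗᵢ[ℝ] E) (G : Set E) : Set E :=
  {z ∈ Q | ∀ x ∈ G, inner ℝ x (U z) = (1 : ℝ)}

/-- the dual face, second version -/
def psi' (Q : Set E) (U : E ≃ₗᵢ[ℝ] E) (G : Set E) : Set E :=
  {x ∈ Q | ∀ z ∈ G, inner ℝ x (U z) = (1 : ℝ)}

namespace SelfPolar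

variable {Q : Set E} {U : E ≃ₗᵢ[ℝ] E}

theorem psi_eq (h : SelfPolar Q U) (G : Set E) (z : E) : z ∈ psi Q U G ↔ U (U z) ∈ psi' Q U G := by
  constructor
  · rintro ⟨hz, hz'⟩
    refine ⟨(h.UU_mem z).2 hz, ?_⟩
    intro x hx
    rw [← h.inner_swap]
    exact hz' x hx
  · rintro ⟨hz, hz'⟩
    refine ⟨(h.UU_mem z).1 hz, ?_⟩
    intro x hx
    rw [h.inner_swap]
    exact hz' x hx

theorem psi_hull (t : Set E) (z : E) (Q' : Set E) :
    z ∈ psi Q' U (convexHull ℝ t) ↔ z ∈ psi Q' U t := by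
  constructor
  · rintro ⟨hz, hz'⟩
    exact ⟨hz, fun x hx => hz' x (subset_convexHull ℝ t hx)⟩
  · rintro ⟨hz, hz'⟩
    refine ⟨hz, ?_⟩
    have hc : Convex ℝ {x : E | inner ℝ x (U z) = (1 : ℝ)} := by
      have h1 : {x : E | inner ℝ x (U z) = (1 : ℝ)} = {x : E | (innerSL ℝ (U z)) x = 1} := by
        ext x
        simp only [Set.mem_setOf_eq, innerSL_apply_apply]
        rw [real_inner_comm]
      rw [h1]
      exact convex_hyperplane (innerSL ℝ (U z)).isLinear 1
    exact fun x hx => convexHull_min hz' hc hx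

theorem psi'_hull (t : Set E) (x : E) (Q' : Set E) :
    x ∈ psi' Q' U (convexHull ℝ t) ↔ x ∈ psi' Q' U t := by
  constructor
  · rintro ⟨hz, hz'⟩
    exact ⟨hz, fun z hz => hz' z (subset_convexHull ℝ t hz)⟩
  · rintro ⟨hz, hz'⟩
    refine ⟨hz, ?_⟩
    have hc : Convex ℝ {z : E | inner ℝ x (U z) = (1 : ℝ)} := by
      have h1 : {z : E | inner ℝ x (U z) = (1 : ℝ)} =
          {z : E | ((innerSL ℝ x).comp (U.toContinuousLinearEquiv : E →L[ℝ] E)) z = 1} := by
        ext z
        simp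
      rw [h1]
      exact convex_hyperplane
        ((innerSL ℝ x).comp (U.toContinuousLinearEquiv : E →L[ℝ] E)).isLinear 1
    exact fun z hz => convexHull_min hz' hc hz

/-- dual faces are exposed -/
theorem psi'_exposed (h : SelfPolar Q U) (t : Set E) (ht : t.Finite) (htQ : t ⊆ Q) :
    IsExposed ℝ Q (psi' Q U t) := by
  classical
  induction t, ht using Set.Finite.induction_on with
  | empty =>
    have : psi' Q U ∅ = Q := by
      ext x
      exact ⟨fun hx => hx.1, fun hx => ⟨hx, fun z hz => absurd hz (Set.notMem_empty z)⟩⟩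
    rw [this]
  | @insert a s has hs ih =>
    have h1 := ih (fun x hx => htQ (Set.mem_insert_of_mem a hx))
    have haQ : a ∈ Q := htQ (Set.mem_insert a s)
    have h2 : IsExposed ℝ Q {x ∈ Q | (innerSL ℝ (U a)) x = 1} := by
      apply exposed_of
      intro x hx
      rw [innerSL_apply_apply, real_inner_comm]
      exact h.le_one hx haQ
    have h3 : psi' Q U (insert a s) = psi' Q U s ∩ {x ∈ Q | (innerSL ℝ (U a)) x = 1} := by
      ext x
      constructor
      · rintro ⟨hx, hx'⟩
        refine ⟨⟨hx, fun z hz => hx' z (Set.mem_insert_of_mem a hz)⟩, hx, ?_⟩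
        rw [innerSL_apply_apply, real_inner_comm]
        exact hx' a (Set.mem_insert a s)
      · rintro ⟨⟨hx, hx'⟩, _, hxa⟩
        refine ⟨hx, ?_⟩
        intro z hz
        rcases hz with rfl | hz
        · rw [innerSL_apply_apply, real_inner_comm] at hxa
          exact hxa
        · exact hx' z hz
    rw [h3]
    exact h1.inter h2

theorem psi_exposed (h : SelfPolar Q U) (t : Set E) (ht : t.Finite) (htQ : t ⊆ Q) :
    IsExposed ℝ Q (psi Q U t) := by
  classical
  induction t, ht using Set.Finite.induction_on with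
  | empty =>
    have : psi Q U ∅ = Q := by
      ext x
      exact ⟨fun hx => hx.1, fun hx => ⟨hx, fun z hz => absurd hz (Set.notMem_empty z)⟩⟩
    rw [this]
  | @insert a s has hs ih =>
    have h1 := ih (fun x hx => htQ (Set.mem_insert_of_mem a hx))
    have haQ : a ∈ Q := htQ (Set.mem_insert a s)
    have h2 : IsExposed ℝ Q
        {x ∈ Q | ((innerSL ℝ a).comp (U.toContinuousLinearEquiv : E →L[ℝ] E)) x = 1} := by
      apply exposed_of
      intro x hx
      have := h.le_one haQ hx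
      simpa using this
    have h3 : psi Q U (insert a s) = psi Q U s ∩
        {x ∈ Q | ((innerSL ℝ a).comp (U.toContinuousLinearEquiv : E →L[ℝ] E)) x = 1} := by
      ext x
      constructor
      · rintro ⟨hx, hx'⟩
        refine ⟨⟨hx, fun z hz => hx' z (Set.mem_insert_of_mem a hz)⟩, hx, ?_⟩
        have := hx' a (Set.mem_insert a s)
        simpa using this
      · rintro ⟨⟨hx, hx'⟩, _, hxa⟩
        refine ⟨hx, ?_⟩
        intro z hz
        rcases hz with rfl | hz
        · simpa using hxa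
        · exact hx' z hz
    rw [h3]
    exact h1.inter h2

theorem psi_empty : psi Q U ∅ = Q := by
  ext x
  exact ⟨fun hx => hx.1, fun hx => ⟨hx, fun z hz => absurd hz (Set.notMem_empty z)⟩⟩

theorem psi'_empty : psi' Q U ∅ = Q := by
  ext x
  exact ⟨fun hx => hx.1, fun hx => ⟨hx, fun z hz => absurd hz (Set.notMem_empty z)⟩⟩

theorem psi_self (h : SelfPolar Q U) : psi Q U Q = ∅ := by
  rw [Set.eq_empty_iff_forall_notMem]
  rintro x ⟨_, hx⟩
  have := hx 0 h.zero_mem
  rw [inner_zero_left] at this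
  exact zero_ne_one this

theorem psi'_self (h : SelfPolar Q U) : psi' Q U Q = ∅ := by
  rw [Set.eq_empty_iff_forall_notMem]
  rintro x ⟨_, hx⟩
  have := hx 0 h.zero_mem
  rw [map_zero, inner_zero_right] at this
  exact zero_ne_one this

theorem psi'_psi (h : SelfPolar Q U) {G : Set E} (hG : IsExposed ℝ Q G) :
    psi' Q U (psi Q U G) = G := by
  rcases G.eq_empty_or_nonempty with h0 | hne
  · rw [h0, psi_empty, h.psi'_self]
  by_cases hpr : G = Q
  · rw [hpr, h.psi_self, psi'_empty]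
  obtain ⟨z, hz, hGz⟩ := h.face_right hG hne hpr
  apply Set.Subset.antisymm
  · rintro x ⟨hx, hx'⟩
    rw [hGz]
    refine ⟨hx, hx' z ⟨hz, ?_⟩⟩
    intro w hw
    rw [hGz] at hw
    exact hw.2
  · intro x hx
    refine ⟨?_, ?_⟩
    · rw [hGz] at hx
      exact hx.1
    · rintro w ⟨_, hw⟩
      exact hw x hx

theorem psi_psi' (h : SelfPolar Q U) {G : Set E} (hG : IsExposed ℝ Q G) :
    psi Q U (psi' Q U G) = G := by
  rcases G.eq_empty_or_nonempty with h0 | hne
  · rw [h0, psi'_empty, h.psi_self]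
  by_cases hpr : G = Q
  · rw [hpr, h.psi'_self, psi_empty]
  obtain ⟨z, hz, hGz⟩ := h.face_left hG hne hpr
  apply Set.Subset.antisymm
  · rintro x ⟨hx, hx'⟩
    rw [hGz]
    refine ⟨hx, hx' z ⟨hz, ?_⟩⟩
    intro w hw
    rw [hGz] at hw
    exact hw.2
  · intro x hx
    refine ⟨?_, ?_⟩
    · rw [hGz] at hx
      exact hx.1
    · rintro w ⟨_, hw⟩
      exact hw x hx

theorem psi_anti {G G' : Set E} (h : G ⊆ G') : psi Q U G' ⊆ psi Q U G :=
  fun _ hz => ⟨hz.1, fun x hx => hz.2 x (h hx)⟩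

theorem psi'_anti {G G' : Set E} (h : G ⊆ G') : psi' Q U G' ⊆ psi' Q U G :=
  fun _ hz => ⟨hz.1, fun x hx => hz.2 x (h hx)⟩

end SelfPolar

/-- The anti-automorphism of the face poset of a self-polar polytope. -/
theorem exists_anti (s : Set E) (hs : s.Finite) (U : E ≃ₗᵢ[ℝ] E)
    (h0 : (0 : E) ∈ interior (convexHull ℝ s))
    (hpol : {y : E | ∀ x ∈ convexHull ℝ s, inner ℝ x y ≤ (1 : ℝ)} = U '' convexHull ℝ s) :
    ∃ ps : Faces (convexHull ℝ s) → Faces (convexHull ℝ s),
      (∀ M M', M ≤ M' ↔ ps M' ≤ ps M) ∧ (∀ N, ∃ M, ps M = N) ∧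
      ∀ M z, z ∈ (ps (ps M)).1 ↔ U (U z) ∈ M.1 := by
  have h : SelfPolar (convexHull ℝ s) U :=
    ⟨h0, (hs.isCompact_convexHull (𝕜 := ℝ)).isClosed, convex_convexHull ℝ s, hpol⟩
  have hexp : ∀ G : Faces (convexHull ℝ s), IsExposed ℝ (convexHull ℝ s)
      (psi (convexHull ℝ s) U G.1) := by
    intro G
    have e := exposed_eq_hull G.2
    have h1 : psi (convexHull ℝ s) U G.1 = psi (convexHull ℝ s) U {x ∈ s | x ∈ G.1} := by
      ext z
      rw [← SelfPolar.psi_hull {x ∈ s | x ∈ G.1}, ← e]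
    rw [h1]
    exact h.psi_exposed _ (hs.subset (fun x hx => hx.1))
      (fun x hx => subset_convexHull ℝ s hx.1)
  have hexp' : ∀ G : Faces (convexHull ℝ s), IsExposed ℝ (convexHull ℝ s)
      (psi' (convexHull ℝ s) U G.1) := by
    intro G
    have e := exposed_eq_hull G.2
    have h1 : psi' (convexHull ℝ s) U G.1 = psi' (convexHull ℝ s) U {x ∈ s | x ∈ G.1} := by
      ext z
      rw [← SelfPolar.psi'_hull {x ∈ s | x ∈ G.1}, ← e]
    rw [h1]
    exact h.psi'_exposed _ (hs.subset (fun x hx => hx.1))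
      (fun x hx => subset_convexHull ℝ s hx.1)
  refine ⟨fun G => ⟨_, hexp G⟩, ?_, ?_, ?_⟩
  · intro M M'
    constructor
    · intro hMM
      exact SelfPolar.psi_anti hMM
    · intro hMM
      have h1 : psi' (convexHull ℝ s) U (psi (convexHull ℝ s) U M.1) ⊆
          psi' (convexHull ℝ s) U (psi (convexHull ℝ s) U M'.1) := SelfPolar.psi'_anti hMM
      rw [h.psi'_psi M.2, h.psi'_psi M'.2] at h1
      exact h1
  · intro N
    refine ⟨⟨_, hexp' N⟩, ?_⟩
    exact Subtype.ext (h.psi_psi' N.2)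
  · intro M z
    change z ∈ psi (convexHull ℝ s) U (psi (convexHull ℝ s) U M.1) ↔ _
    rw [h.psi_eq, h.psi'_psi M.2]

end W302.SP
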