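import Pool.Agent.W302.SP.Comb
import Pool.Agent.W302.SP.Polar
import Pool.Agent.W302.SP.Lin

set_option autoImplicit false

namespace W302.SP

abbrev E4 : Type := EuclideanSpace ℝ (Fin 4)

/-- sum of the first four homogeneous coordinates -/
def cc (i : I) : ℝ := (xa i 0 : ℝ) + xa i 1 + xa i 2 + xa i 3

theorem cc_pos (i : I) : 0 < cc i := by
  unfold cc
  exact_mod_cast sumx_pos i

/-- the 38 vertices -/
noncomputable def pts (i : I) : E4 :=
  !₂[(xa i 0 : ℝ) / cc i, (xa i 1 : ℝ) / cc i, (xa i 2 : ℝ) / cc i, (x5 i : ℝ) / cc i]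

theorem inner_pts (y : E4) (i : I) : inner ℝ y (pts i) =
    ((xa i 0 : ℝ) / cc i) * y 0 + ((xa i 1 : ℝ) / cc i) * y 1 + ((xa i 2 : ℝ) / cc i) * y 2 +
      ((x5 i : ℝ) / cc i) * y 3 := by
  simp [PiLp.inner_apply, Fin.sum_univ_four, pts]

theorem val_eq (y : E4) (m : ℝ) (i : I) :
    val ![m - y 0, m - y 1, m - y 2, m] (- y 3) i = cc i * (m - inner ℝ y (pts i)) := by
  rw [inner_pts]
  have h := (cc_pos i).ne'
  unfold val rd
  simp only [Matrix.cons_val]
  field_simp
  unfold cc
  ring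

theorem inner_of (l : E4 →L[ℝ] ℝ) : ∃ y : E4, ∀ x, l x = inner ℝ y x :=
  ⟨(InnerProductSpace.toDual ℝ E4).symm l, fun x => InnerProductSpace.toDual_symm_apply.symm⟩

theorem H1 (l : E4 →L[ℝ] ℝ) (m : ℝ) (h : ∀ i, l (pts i) ≤ m) : Closed {i | l (pts i) = m} := by
  obtain ⟨y, hy⟩ := inner_of l
  have h0 : ∀ i, 0 ≤ val ![m - y 0, m - y 1, m - y 2, m] (- y 3) i := by
    intro i
    rw [val_eq]
    apply mul_nonneg (cc_pos i).le
    have := h i
    rw [hy] at this
    linarith
  have h1 := closed_zero _ _ h0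
  have h2 : {i | l (pts i) = m} = {i | val ![m - y 0, m - y 1, m - y 2, m] (- y 3) i = 0} := by
    ext i
    change l (pts i) = m ↔ val ![m - y 0, m - y 1, m - y 2, m] (- y 3) i = 0
    rw [val_eq, hy, mul_eq_zero]
    constructor
    · intro h3
      right
      linarith
    · rintro (h3 | h3)
      · exact absurd h3 (cc_pos i).ne'
      · linarith
  rw [h2]
  exact h1

theorem H2 (M : Set I) (hM : Closed M) :
    ∃ (l : E4 →L[ℝ] ℝ) (m : ℝ), (∀ i, l (pts i) ≤ m) ∧ {i | l (pts i) = m} = M := by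
  obtain ⟨L, z, hv, hz⟩ := exists_of_closed M hM
  set y : E4 := !₂[L 3 - L 0, L 3 - L 1, L 3 - L 2, - z] with hy
  have hval : ∀ i, val L z i = cc i * (L 3 - inner ℝ y (pts i)) := by
    intro i
    rw [← val_eq]
    congr 1
    · funext k
      fin_cases k <;> simp [hy]
    · simp [hy]
  refine ⟨innerSL ℝ y, L 3, ?_, ?_⟩
  · intro i
    rw [innerSL_apply_apply]
    have h1 := hv i
    rw [hval] at h1
    have h2 := nonneg_of_mul_nonneg_right h1 (cc_pos i)
    linarith
  · rw [← hz]
    ext i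
    change (innerSL ℝ y) (pts i) = L 3 ↔ val L z i = 0
    rw [innerSL_apply_apply, hval, mul_eq_zero]
    constructor
    · intro h3
      right
      linarith
    · rintro (h3 | h3)
      · exact absurd h3 (cc_pos i).ne'
      · linarith

noncomputable def FI : Faces (convexHull ℝ (Set.range pts)) ≃o Lat := faceIso pts Closed H1 H2

theorem al_al : ∀ v : Fin 10, al (al v) = v := by decide

theorem main_contra (T : Set E4) (hT : T.Finite) (U : E4 ≃ₗᵢ[ℝ] E4)
    (e : Faces (convexHull ℝ (Set.range pts)) ≃o Faces (convexHull ℝ T))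
    (h0 : (0 : E4) ∈ interior (convexHull ℝ T))
    (hpol : {y : E4 | ∀ x ∈ convexHull ℝ T, inner ℝ x y ≤ (1 : ℝ)} = U '' convexHull ℝ T) :
    False := by
  obtain ⟨ps, hps, hsurj, hUU⟩ := exists_anti T hT U h0 hpol
  set g : Lat ≃o Faces (convexHull ℝ T) := FI.symm.trans e with hg
  obtain ⟨f, h, hf, hh', hfi, hhi, hinc⟩ := extract (fun M => g.symm (ps (g M)))
    (by
      intro M M'
      rw [← g.le_iff_le, hps, g.symm.le_iff_le])
    (by
      intro N
      obtain ⟨M, hM⟩ := hsurj (g N)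
      refine ⟨g.symm M, ?_⟩
      simp only [OrderIso.apply_symm_apply, hM, OrderIso.symm_apply_apply])
  have hcl := classify f h hfi hhi hinc
  -- vertices
  have hy : ∀ i : I, ∃ y : E4, (g (vtx i)).1 = {y} := by
    intro i
    have hne : (g (vtx i)).1.Nonempty := by
      rw [Set.nonempty_iff_ne_empty]
      intro hemp
      have h1 : g (vtx i) ≤ g lbot := by
        change (g (vtx i)).1 ⊆ _
        rw [hemp]
        exact Set.empty_subset _
      rw [g.le_iff_le, vtx_le] at h1
      exact h1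
    obtain ⟨y, hy, hyE⟩ := exists_vertex T hT (g (vtx i)).2 hne
    set Y : Faces (convexHull ℝ T) := ⟨{y}, hyE⟩ with hY
    have h1 : Y ≤ g (vtx i) := by
      change ({y} : Set E4) ⊆ (g (vtx i)).1
      rw [Set.singleton_subset_iff]
      exact hy
    have h2 : g.symm Y ≤ vtx i := by
      rw [← g.le_iff_le, g.apply_symm_apply]
      exact h1
    rcases le_vtx i _ h2 with h3 | h3
    · exfalso
      have h4 : Y ≤ ⟨∅, isExposed_empty⟩ := by
        rw [← g.symm.le_iff_le, h3]
        exact fun k hk => absurd hk (Set.notMem_empty k)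
      have h5 : y ∈ (∅ : Set E4) := h4 (Set.mem_singleton y)
      exact h5
    · refine ⟨y, ?_⟩
      rw [← h3, g.apply_symm_apply]
  choose y hy using hy
  -- the action of `U ∘ U`
  have hU1 : ∀ i, U (U (y (h (f i)))) = y i := by
    intro i
    have e1 : ps (g (vtx i)) = g (fct (f i)) := by
      rw [← hf i, g.apply_symm_apply]
    have e2 : ps (g (fct (f i))) = g (vtx (h (f i))) := by
      rw [← hh' (f i), g.apply_symm_apply]
    have e3 := hUU (g (vtx i)) (y (h (f i)))
    rw [e1, e2, hy, hy] at e3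
    exact Set.mem_singleton_iff.1 (e3.1 (Set.mem_singleton _))
  have hU2 : ∀ v : Fin 10, U (U (y (.inl v))) = y (.inl (al v)) := by
    intro v
    have := hU1 (.inl (al v))
    rw [hcl, al_al] at this
    exact this
  refine no_realisation (E := E4) (by simp) (fun v => y (.inl v))
    ((U.toLinearEquiv.toLinearMap).comp (U.toLinearEquiv.toLinearMap)) (fun v => hU2 v) ?_
  intro G N hNG hNne
  set M : Lat := ⟨Sum.inl '' N, closed_sub G _ (by
    rintro i ⟨v, hv, rfl⟩
    exact ⟨v, rfl, hNG v hv⟩)⟩ with hM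
  have hmem : ∀ v : Fin 10, y (.inl v) ∈ (g M).1 ↔ v ∈ N := by
    intro v
    have h1 : g (vtx (.inl v)) ≤ g M ↔ y (.inl v) ∈ (g M).1 := by
      change (g (vtx (.inl v))).1 ⊆ (g M).1 ↔ _
      rw [hy, Set.singleton_subset_iff]
    rw [← h1, g.le_iff_le, vtx_le]
    change Sum.inl v ∈ Sum.inl '' N ↔ v ∈ N
    constructor
    · rintro ⟨v', hv', h2⟩
      rw [← Sum.inl_injective h2]
      exact hv'
    · intro hv
      exact ⟨v, hv, rfl⟩
  have hne : (g M).1.Nonempty := by
    obtain ⟨v, hv⟩ := hNne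
    exact ⟨y (.inl v), (hmem v).2 hv⟩
  obtain ⟨l, m, hl, hFm⟩ := exists_of_exposed (g M).2 hne
  have hyQ : ∀ i, y i ∈ convexHull ℝ T := by
    intro i
    have h1 : y i ∈ (g (vtx i)).1 := by rw [hy]; exact Set.mem_singleton _
    obtain ⟨l', m', hl', hF'⟩ := exists_of_exposed (g (vtx i)).2 ⟨_, h1⟩
    rw [hF'] at h1
    exact h1.1
  refine ⟨l, m, fun v => ⟨hl _ (hyQ _), ?_⟩⟩
  rw [← hmem v, hFm]
  exact ⟨fun h1 => ⟨hyQ _, h1⟩, fun h1 => h1.2⟩

/-! ### the polytope is full-dimensional -/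

theorem pts_mem_span (i : I) (h9 : pts (.inl 9) = 0) :
    pts i ∈ vectorSpan ℝ (Set.range pts) := by
  have := vsub_mem_vectorSpan ℝ (Set.mem_range_self (f := pts) i)
    (Set.mem_range_self (f := pts) (.inl 9))
  rw [h9] at this
  simpa using this

theorem full : affineSpan ℝ (Set.range pts) = ⊤ := by
  have hg : ∀ v : Fin 10, ∀ k, xa (.inl v) k = gg v k := fun v k => rfl
  have hx : ∀ v : Fin 10, x5 (.inl v) = hh v := fun v => rfl
  have h9 : pts (.inl 9) = 0 := by
    ext k
    have e0 : gg 9 0 = 0 := by decide +kernel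
    have e1 : gg 9 1 = 0 := by decide +kernel
    have e2 : gg 9 2 = 0 := by decide +kernel
    have e3 : hh 9 = 0 := by decide +kernel
    fin_cases k <;> simp [pts, hg, hx, e0, e1, e2, e3]
  have m := fun i => pts_mem_span i h9
  set W := vectorSpan ℝ (Set.range pts) with hW
  have b0 : EuclideanSpace.single 0 (1 : ℝ) ∈ W := by
    have : pts (.inl 2) = EuclideanSpace.single 0 (1 : ℝ) := by
      have e0 : gg 2 0 = 1 := by decide +kernel
      have e1 : gg 2 1 = 0 := by decide +kernel
      have e2 : gg 2 2 = 0 := by decide +kernel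
      have e3 : gg 2 3 = 0 := by decide +kernel
      have e4 : hh 2 = 0 := by decide +kernel
      ext k
      fin_cases k <;> simp [pts, cc, hg, hx, e0, e1, e2, e3, e4]
    rw [← this]; exact m _
  have b1 : EuclideanSpace.single 1 (1 : ℝ) ∈ W := by
    have : pts (.inl 4) = EuclideanSpace.single 1 (1 : ℝ) := by
      have e0 : gg 4 0 = 0 := by decide +kernel
      have e1 : gg 4 1 = 1 := by decide +kernel
      have e2 : gg 4 2 = 0 := by decide +kernel
      have e3 : gg 4 3 = 0 := by decide +kernel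
      have e4 : hh 4 = 0 := by decide +kernel
      ext k
      fin_cases k <;> simp [pts, cc, hg, hx, e0, e1, e2, e3, e4]
    rw [← this]; exact m _
  have b2 : EuclideanSpace.single 2 (1 : ℝ) ∈ W := by
    have : pts (.inl 6) = EuclideanSpace.single 2 (1 : ℝ) := by
      have e0 : gg 6 0 = 0 := by decide +kernel
      have e1 : gg 6 1 = 0 := by decide +kernel
      have e2 : gg 6 2 = 1 := by decide +kernel
      have e3 : gg 6 3 = 0 := by decide +kernel
      have e4 : hh 6 = 0 := by decide +kernel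
      ext k
      fin_cases k <;> simp [pts, cc, hg, hx, e0, e1, e2, e3, e4]
    rw [← this]; exact m _
  have b3 : EuclideanSpace.single 3 (1 : ℝ) ∈ W := by
    have e4 : hh 0 = 1 := by decide +kernel
    have hc := (cc_pos (.inl 0)).ne'
    have : EuclideanSpace.single 3 (1 : ℝ) = cc (.inl 0) • (pts (.inl 0)
        - ((xa (.inl 0) 0 : ℝ) / cc (.inl 0)) • EuclideanSpace.single 0 (1 : ℝ)
        - ((xa (.inl 0) 1 : ℝ) / cc (.inl 0)) • EuclideanSpace.single 1 (1 : ℝ)
        - ((xa (.inl 0) 2 : ℝ) / cc (.inl 0)) • EuclideanSpace.single 2 (1 : ℝ)) := by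
      ext k
      fin_cases k
      · simp [pts]
      · simp [pts]
      · simp [pts]
      · simp [pts, hx, e4]
        field_simp
    rw [this]
    exact W.smul_mem _ (W.sub_mem (W.sub_mem (W.sub_mem (m _) (W.smul_mem _ b0))
      (W.smul_mem _ b1)) (W.smul_mem _ b2))
  have hWt : W = ⊤ := by
    rw [eq_top_iff]
    intro v _
    have : v = v 0 • EuclideanSpace.single 0 (1 : ℝ) + v 1 • EuclideanSpace.single 1 (1 : ℝ)
        + v 2 • EuclideanSpace.single 2 (1 : ℝ) + v 3 • EuclideanSpace.single 3 (1 : ℝ) := by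
      ext k
      fin_cases k <;> simp
    rw [this]
    exact W.add_mem (W.add_mem (W.add_mem (W.smul_mem _ b0) (W.smul_mem _ b1))
      (W.smul_mem _ b2)) (W.smul_mem _ b3)
  rw [AffineSubspace.affineSpan_eq_top_iff_vectorSpan_eq_top_of_nonempty ℝ E4 E4
    (Set.range_nonempty pts)]
  exact hWt

theorem main : ¬ (∀ (d : ℕ) (S : Finset (EuclideanSpace ℝ (Fin d))),
      (interior (convexHull ℝ (S : Set (EuclideanSpace ℝ (Fin d))))).Nonempty →
      Nonempty ({F : Set (EuclideanSpace ℝ (Fin d)) //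
                  IsExposed ℝ (convexHull ℝ (S : Set (EuclideanSpace ℝ (Fin d)))) F} ≃o
                ({F : Set (EuclideanSpace ℝ (Fin d)) //
                  IsExposed ℝ (convexHull ℝ (S : Set (EuclideanSpace ℝ (Fin d)))) F})ᵒᵈ) →
      ∃ (T : Finset (EuclideanSpace ℝ (Fin d)))
        (U : EuclideanSpace ℝ (Fin d) ≃ₗᵢ[ℝ] EuclideanSpace ℝ (Fin d)),
        Nonempty ({F : Set (EuclideanSpace ℝ (Fin d)) //
                    IsExposed ℝ (convexHull ℝ (S : Set (EuclideanSpace ℝ (Fin d)))) F} ≃o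
                  {F : Set (EuclideanSpace ℝ (Fin d)) //
                    IsExposed ℝ (convexHull ℝ (T : Set (EuclideanSpace ℝ (Fin d)))) F}) ∧
        (0 : EuclideanSpace ℝ (Fin d)) ∈
          interior (convexHull ℝ (T : Set (EuclideanSpace ℝ (Fin d)))) ∧
        {y : EuclideanSpace ℝ (Fin d) |
            ∀ x ∈ convexHull ℝ (T : Set (EuclideanSpace ℝ (Fin d))), inner ℝ x y ≤ (1 : ℝ)} =
          U '' convexHull ℝ (T : Set (EuclideanSpace ℝ (Fin d)))) := by
  classical
  intro h
  have hS : ((Finset.univ.image pts : Finset E4) : Set E4) = Set.range pts := by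
    rw [Finset.coe_image, Finset.coe_univ, Set.image_univ]
  have h1 := h 4 (Finset.univ.image pts)
  rw [hS] at h1
  obtain ⟨T, U, ⟨e⟩, h0, hpol⟩ := h1
    ((interior_convexHull_nonempty_iff_affineSpan_eq_top).2 full)
    ⟨(FI.trans latDual).trans FI.symm.dual⟩
  exact main_contra (T : Set E4) T.finite_toSet U e h0 hpol

end W302.SP
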