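import Pool.Agent.W302.SP.Data

set_option autoImplicit false

namespace W302.SP

theorem slack_spec : ∀ i j : I, 0 ≤ slack i j ∧ (slack i j = 0 ↔ inc i j = true) := by
  decide +kernel

theorem gg_nonneg : ∀ (v : Fin 10) (i : Fin 4), 0 ≤ gg v i := by decide +kernel

theorem nn_nonneg : ∀ (G : Fin 28) (i : Fin 4), 0 ≤ nn G i := by decide +kernel

theorem ww_pos : ∀ G : Fin 28, 0 < ww G := by decide +kernel

theorem hh_cases : ∀ v : Fin 10, hh v = 0 ∨ hh v = 1 := by decide +kernel

theorem sumx_pos : ∀ i : I, 0 < xa i 0 + xa i 1 + xa i 2 + xa i 3 := by decide +kernel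

theorem dd_spec : ∀ (G : Fin 28) (k : Fin 4),
    (∃ G' : Fin 28, ∀ i : Fin 4, dd G k i = ww G * nn G' i - ww G' * nn G i) ∨
    (∃ u : Fin 4, ∀ i : Fin 4, dd G k i = if i = u then 1 else 0) := by decide +kernel

theorem Dk_pos : ∀ (G : Fin 28) (k : Fin 4), 0 < Dk G k := by decide +kernel

theorem inv_spec : ∀ (G : Fin 28) (i j : Fin 4),
    gg (fac G 0) i * dd G 0 j * PD G 0 + gg (fac G 1) i * dd G 1 j * PD G 1 +
      gg (fac G 2) i * dd G 2 j * PD G 2 + gg (fac G 3) i * dd G 3 j * PD G 3 =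
      if i = j then Dk G 0 * Dk G 1 * Dk G 2 * Dk G 3 else 0 := by decide +kernel

theorem vF_spec : ∀ (u k : Fin 4), gg (vF (u + 1)) (k + 1) = if k = u then 1 else 0 := by
  decide +kernel

theorem vF_hh : ∀ (u : Fin 4), hh (vF u) = 0 := by decide +kernel

theorem vF_gg : ∀ (u k : Fin 4), gg (vF u) k = if k = u then 1 else 0 := by decide +kernel

/-- every subset of a `T`-facet is cut out by facets -/
theorem nbr_spec : ∀ (G : Fin 28) (k : Fin 4), ∃ j : I,
    (∀ m : Fin 4, m ≠ k → inc (.inl (fac G m)) j = true) ∧ inc (.inl (fac G k)) j = false := by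
  decide +kernel

theorem vtx_closed : ∀ i k : I, k ≠ i → ∃ j : I, inc i j = true ∧ inc k j = false := by
  decide +kernel

theorem fct_anti : ∀ j j' : I, (∀ i : I, inc i j = true → inc i j' = true) → j = j' := by
  decide +kernel

end W302.SP
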