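import Pool.Agent.W302.SP.Star

set_option autoImplicit false

namespace W302.SP

/-- closed sets of vertices for the incidence relation -/
def Closed (M : Set I) : Prop :=
  ∀ i : I, (∀ j : I, (∀ k ∈ M, inc k j = true) → inc i j = true) → i ∈ M

theorem mem_iff (v : Fin 10) (G : Fin 28) : mem v G = true ↔ ∃ k : Fin 4, fac G k = v := by
  unfold mem
  constructor
  · intro h
    simp only [Bool.or_eq_true, beq_iff_eq] at h
    rcases h with ((h | h) | h) | h
    · exact ⟨0, h⟩
    · exact ⟨1, h⟩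
    · exact ⟨2, h⟩
    · exact ⟨3, h⟩
  · rintro ⟨k, h⟩
    simp only [Bool.or_eq_true, beq_iff_eq]
    fin_cases k
    · exact Or.inl (Or.inl (Or.inl h))
    · exact Or.inl (Or.inl (Or.inr h))
    · exact Or.inl (Or.inr h)
    · exact Or.inr h

theorem closed_sub (G : Fin 28) (N : Set I)
    (hN : ∀ i ∈ N, ∃ v, i = .inl v ∧ mem v G = true) : Closed N := by
  intro i hi
  have h1 : inc i (.inr G) = true := by
    apply hi
    intro k hk
    obtain ⟨v, rfl, hv⟩ := hN k hk
    exact hv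
  rcases i with v | G'
  · have h2 : mem v G = true := h1
    obtain ⟨k, hk⟩ := (mem_iff v G).1 h2
    by_contra hcon
    obtain ⟨j, hj, hj'⟩ := nbr_spec G k
    have h3 : inc (.inl v) j = true := by
      apply hi
      intro k' hk'
      obtain ⟨v', rfl, hv'⟩ := hN k' hk'
      obtain ⟨m, hm⟩ := (mem_iff v' G).1 hv'
      have hne : m ≠ k := by
        rintro rfl
        apply hcon
        rw [← hk, hm]
        exact hk'
      rw [← hm]
      exact hj m hne
    rw [← hk] at h3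
    rw [h3] at hj'
    exact Bool.noConfusion hj'
  · exact absurd h1 (by simp [inc])

/-- value of a homogeneous functional at a vertex -/
def val (l : Fin 4 → ℝ) (z : ℝ) (i : I) : ℝ := rd (xa i) l + z * (x5 i : ℝ)

theorem slack_real (i j : I) : (slack i j : ℝ) =
    rd (xa i) (fun k => (aa j k : ℝ)) + (a5 j : ℝ) * (x5 i : ℝ) := by
  unfold slack dot rd
  push_cast
  ring

theorem slack_nonneg (i j : I) : (0 : ℝ) ≤ (slack i j : ℝ) := by
  exact_mod_cast (slack_spec i j).1

theorem inc_iff (i j : I) : inc i j = true ↔ (slack i j : ℝ) = 0 := by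
  rw [← (slack_spec i j).2]
  exact_mod_cast Iff.rfl

theorem slack_vF (i : I) (u : Fin 4) : (slack i (.inl (vF (u + 1))) : ℝ) = (xa i u : ℝ) := by
  rw [slack_real]
  have h5 : a5 (.inl (vF (u + 1))) = 0 := vF_hh (u + 1)
  have ha : ∀ k, (aa (.inl (vF (u + 1))) k) = if k = u then 1 else 0 := fun k => vF_spec u k
  rw [h5]
  unfold rd
  simp only [ha]
  fin_cases u <;> simp

theorem xa_nonneg (i : I) (u : Fin 4) : (0 : ℝ) ≤ (xa i u : ℝ) := by
  rw [← slack_vF]
  exact slack_nonneg _ _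

/-- slack of `v` on the `T`-facet `G` -/
theorem slack_T (v : Fin 10) (G : Fin 28) : (slack (.inl v) (.inr G) : ℝ) =
    rd (nn G) (fun k => (gg v k : ℝ)) - (ww G : ℝ) * (hh v : ℝ) := by
  have h : slack (.inl v) (.inr G) = dot (nn G) (gg v) + (- ww G) * hh v := rfl
  rw [h]
  unfold dot rd
  push_cast
  ring

theorem fac_slack (G : Fin 28) (k : Fin 4) :
    rd (nn G) (fun i => (gg (fac G k) i : ℝ)) = (ww G : ℝ) * (hh (fac G k) : ℝ) := by
  have h1 : inc (.inl (fac G k)) (.inr G) = true := (mem_iff _ _).2 ⟨k, rfl⟩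
  rw [inc_iff, slack_T] at h1
  linarith

theorem hh_nonneg (v : Fin 10) : (0 : ℝ) ≤ (hh v : ℝ) := by
  rcases hh_cases v with h | h <;> rw [h] <;> norm_num

theorem l_nonneg (l : Fin 4 → ℝ) (z : ℝ) (h : ∀ i, 0 ≤ val l z i) (u : Fin 4) : 0 ≤ l u := by
  have h1 := h (.inl (vF u))
  have h5 : x5 (.inl (vF u)) = 0 := vF_hh u
  have ha : ∀ k, xa (.inl (vF u)) k = if k = u then 1 else 0 := fun k => vF_gg u k
  unfold val rd at h1
  rw [h5, ha 0, ha 1, ha 2, ha 3] at h1
  fin_cases u <;> simpa using h1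

theorem closed_A (l : Fin 4 → ℝ) (z : ℝ) (hz : 0 ≤ z) (h : ∀ i, 0 ≤ val l z i) :
    Closed {i | val l z i = 0} := by
  have hl := l_nonneg l z h
  obtain ⟨G, lam, hlam, hs⟩ := star (fun i => l (i + 3)) (fun i => hl _)
  have hs' : ∀ i, l i = lam 0 * (gg (fac G 0) (i + 1) : ℝ) + lam 1 * (gg (fac G 1) (i + 1) : ℝ) +
        lam 2 * (gg (fac G 2) (i + 1) : ℝ) + lam 3 * (gg (fac G 3) (i + 1) : ℝ) := by
    intro i
    have := hs (i + 1)
    have e : i + 1 + 3 = i := by fin_cases i <;> rfl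
    rw [e] at this
    exact this
  obtain ⟨Lam, hLam⟩ : ∃ Lam : ℝ, Lam = lam 0 * (hh (fac G 0) : ℝ) + lam 1 * (hh (fac G 1) : ℝ) +
      lam 2 * (hh (fac G 2) : ℝ) + lam 3 * (hh (fac G 3) : ℝ) := ⟨_, rfl⟩
  have hw : (0 : ℝ) < (ww G : ℝ) := by exact_mod_cast ww_pos G
  have hLz : z ≤ Lam := by
    have h1 := h (.inr G)
    have hx : ∀ i, xa (.inr G) i = nn G (i + 1) := fun i => rfl
    have hx5 : x5 (.inr G) = - ww G := rfl
    have e : val l z (.inr G) = (ww G : ℝ) * (Lam - z) := by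
      unfold val rd
      rw [hx 0, hx 1, hx 2, hx 3, hx5, hs' 0, hs' 1, hs' 2, hs' 3, hLam]
      have f0 := fac_slack G 0
      have f1 := fac_slack G 1
      have f2 := fac_slack G 2
      have f3 := fac_slack G 3
      unfold rd at f0 f1 f2 f3
      have n1 : (0 : Fin 4) + 1 = 1 := rfl
      have n2 : (1 : Fin 4) + 1 = 2 := rfl
      have n3 : (2 : Fin 4) + 1 = 3 := rfl
      have n4 : (3 : Fin 4) + 1 = 0 := rfl
      rw [n1, n2, n3, n4]
      push_cast
      linear_combination lam 0 * f0 + lam 1 * f1 + lam 2 * f2 + lam 3 * f3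
    rw [e] at h1
    have h2 : 0 ≤ Lam - z := by
      by_contra hc
      push Not at hc
      have := mul_neg_of_pos_of_neg hw hc
      linarith
    linarith
  have hL0 : 0 ≤ Lam := le_trans hz hLz
  obtain ⟨th, ht0, ht1, ht⟩ : ∃ th : ℝ, 0 ≤ th ∧ th ≤ 1 ∧ th * Lam = z := by
    by_cases hL : Lam = 0
    · refine ⟨0, le_refl _, by norm_num, ?_⟩
      have : z ≤ 0 := by rw [← hL]; exact hLz
      linarith
    · have hLp : 0 < Lam := lt_of_le_of_ne hL0 (Ne.symm hL)
      refine ⟨z / Lam, div_nonneg hz hL0, ?_, ?_⟩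
      · rw [div_le_one hLp]; exact hLz
      · field_simp
  have hval : ∀ i, val l z i =
      (th * lam 0 * (slack i (.inl (fac G 0)) : ℝ) + th * lam 1 * (slack i (.inl (fac G 1)) : ℝ) +
       th * lam 2 * (slack i (.inl (fac G 2)) : ℝ) + th * lam 3 * (slack i (.inl (fac G 3)) : ℝ)) +
      ((1 - th) * l 0 * (slack i (.inl (vF (0 + 1))) : ℝ) +
       (1 - th) * l 1 * (slack i (.inl (vF (1 + 1))) : ℝ) +
       (1 - th) * l 2 * (slack i (.inl (vF (2 + 1))) : ℝ) +
       (1 - th) * l 3 * (slack i (.inl (vF (3 + 1))) : ℝ)) := by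
    intro i
    rw [slack_vF, slack_vF, slack_vF, slack_vF, slack_real, slack_real, slack_real, slack_real]
    have hx : ∀ (v : Fin 10) k, aa (.inl v) k = gg v (k + 1) := fun v k => rfl
    have hx5 : ∀ v : Fin 10, a5 (.inl v) = hh v := fun v => rfl
    unfold val rd
    simp only [hx, hx5]
    have q0 := hs' 0
    have q1 := hs' 1
    have q2 := hs' 2
    have q3 := hs' 3
    rw [← ht, hLam]
    linear_combination (th * (xa i 0 : ℝ)) * q0 + (th * (xa i 1 : ℝ)) * q1 +
      (th * (xa i 2 : ℝ)) * q2 + (th * (xa i 3 : ℝ)) * q3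
  -- each term vanishes on the zero set
  have hmain : ∀ (i0 : I) (c : ℝ) (j : I), 0 ≤ c →
      (∀ i, val l z i = 0 → c * (slack i j : ℝ) = 0) →
      (∀ j : I, (∀ k ∈ {i | val l z i = 0}, inc k j = true) → inc i0 j = true) →
      c * (slack i0 j : ℝ) = 0 := by
    intro i0 c j hc hz' H
    by_cases hc0 : c = 0
    · rw [hc0, zero_mul]
    · have : inc i0 j = true := by
        apply H
        intro k hk
        rw [inc_iff]
        rcases mul_eq_zero.1 (hz' k hk) with h1 | h1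
        · exact absurd h1 hc0
        · exact h1
      rw [(inc_iff _ _).1 this, mul_zero]
  have hnn : ∀ (c : ℝ) (i j : I), 0 ≤ c → 0 ≤ c * (slack i j : ℝ) := fun c i j hc =>
    mul_nonneg hc (slack_nonneg i j)
  have c1 : ∀ k, 0 ≤ th * lam k := fun k => mul_nonneg ht0 (hlam k)
  have c2 : ∀ k, 0 ≤ (1 - th) * l k := fun k => mul_nonneg (by linarith) (hl k)
  intro i0 H
  have all : ∀ i, val l z i = 0 →
      (∀ k, th * lam k * (slack i (.inl (fac G k)) : ℝ) = 0) ∧
      (∀ k, (1 - th) * l k * (slack i (.inl (vF (k + 1))) : ℝ) = 0) := by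
    intro i hi
    rw [hval i] at hi
    have a0 := hnn _ i (.inl (fac G 0)) (c1 0)
    have a1 := hnn _ i (.inl (fac G 1)) (c1 1)
    have a2 := hnn _ i (.inl (fac G 2)) (c1 2)
    have a3 := hnn _ i (.inl (fac G 3)) (c1 3)
    have b0 := hnn _ i (.inl (vF (0 + 1))) (c2 0)
    have b1 := hnn _ i (.inl (vF (1 + 1))) (c2 1)
    have b2 := hnn _ i (.inl (vF (2 + 1))) (c2 2)
    have b3 := hnn _ i (.inl (vF (3 + 1))) (c2 3)
    constructor
    · intro k
      fin_cases k
      · exact le_antisymm (by simp only [Fin.zero_eta]; linarith) a0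
      · exact le_antisymm (by simp only [Fin.mk_one]; linarith) a1
      · exact le_antisymm (by change th * lam 2 * (slack i (.inl (fac G 2)) : ℝ) ≤ 0; linarith) a2
      · exact le_antisymm (by change th * lam 3 * (slack i (.inl (fac G 3)) : ℝ) ≤ 0; linarith) a3
    · intro k
      fin_cases k
      · exact le_antisymm
          (by change (1 - th) * l 0 * (slack i (.inl (vF (0 + 1))) : ℝ) ≤ 0; linarith) b0
      · exact le_antisymm
          (by change (1 - th) * l 1 * (slack i (.inl (vF (1 + 1))) : ℝ) ≤ 0; linarith) b1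
      · exact le_antisymm
          (by change (1 - th) * l 2 * (slack i (.inl (vF (2 + 1))) : ℝ) ≤ 0; linarith) b2
      · exact le_antisymm
          (by change (1 - th) * l 3 * (slack i (.inl (vF (3 + 1))) : ℝ) ≤ 0; linarith) b3
  have g1 : ∀ k, th * lam k * (slack i0 (.inl (fac G k)) : ℝ) = 0 := fun k =>
    hmain i0 _ _ (c1 k) (fun i hi => (all i hi).1 k) H
  have g2 : ∀ k, (1 - th) * l k * (slack i0 (.inl (vF (k + 1))) : ℝ) = 0 := fun k =>
    hmain i0 _ _ (c2 k) (fun i hi => (all i hi).2 k) H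
  change val l z i0 = 0
  rw [hval i0, g1 0, g1 1, g1 2, g1 3, g2 0, g2 1, g2 2, g2 3]
  norm_num

theorem rd_sum (p : Fin 4 → ℤ) (m : Fin 10 → ℝ) :
    rd p (fun i => ∑ v, m v * (gg v i : ℝ)) = ∑ v, m v * rd p (fun i => (gg v i : ℝ)) := by
  unfold rd
  simp only [Finset.mul_sum, ← Finset.sum_add_distrib]
  apply Finset.sum_congr rfl
  intro v _
  ring

theorem closed_B (l : Fin 4 → ℝ) (z : ℝ) (hz : z < 0) (h : ∀ i, 0 ≤ val l z i) :
    Closed {i | val l z i = 0} := by
  classical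
  have hl := l_nonneg l z h
  set m : Fin 10 → ℝ := fun v => if val l z (.inl v) = 0 then 1 else 0 with hm
  have hm0 : ∀ v, 0 ≤ m v := by
    intro v
    simp only [hm]
    split_ifs <;> norm_num
  obtain ⟨G, lam, hlam, hs⟩ := star (fun i => ∑ v, m v * (gg v i : ℝ)) (fun i =>
    Finset.sum_nonneg (fun v _ => mul_nonneg (hm0 v) (by exact_mod_cast gg_nonneg v i)))
  have hw : (0 : ℝ) < (ww G : ℝ) := by exact_mod_cast ww_pos G
  obtain ⟨Lam, hLam⟩ : ∃ Lam : ℝ, Lam = lam 0 * (hh (fac G 0) : ℝ) + lam 1 * (hh (fac G 1) : ℝ) +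
      lam 2 * (hh (fac G 2) : ℝ) + lam 3 * (hh (fac G 3) : ℝ) := ⟨_, rfl⟩
  set H : ℝ := ∑ v, m v * (hh v : ℝ) with hH
  have hvalv : ∀ v : Fin 10, val l z (.inl v) = rd (gg v) l + z * (hh v : ℝ) := fun v => rfl
  -- pairing with `l`
  have e1 : ∑ v, m v * rd (gg v) l = (-z) * H := by
    rw [hH, Finset.mul_sum]
    apply Finset.sum_congr rfl
    intro v _
    by_cases hv : val l z (.inl v) = 0
    · have : rd (gg v) l = (-z) * (hh v : ℝ) := by
        rw [hvalv] at hv; linarith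
      rw [this]; ring
    · have : m v = 0 := by simp only [hm, if_neg hv]
      rw [this]; ring
  have e2 : ∑ v, m v * rd (gg v) l = lam 0 * rd (gg (fac G 0)) l + lam 1 * rd (gg (fac G 1)) l +
      lam 2 * rd (gg (fac G 2)) l + lam 3 * rd (gg (fac G 3)) l := by
    have : ∑ v, m v * rd (gg v) l = (∑ v, m v * (gg v 0 : ℝ)) * l 0 +
        (∑ v, m v * (gg v 1 : ℝ)) * l 1 + (∑ v, m v * (gg v 2 : ℝ)) * l 2 +
        (∑ v, m v * (gg v 3 : ℝ)) * l 3 := by
      simp only [Finset.sum_mul, ← Finset.sum_add_distrib]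
      apply Finset.sum_congr rfl
      intro v _
      unfold rd
      ring
    rw [this]
    have q0 := hs 0
    have q1 := hs 1
    have q2 := hs 2
    have q3 := hs 3
    rw [q0, q1, q2, q3]
    unfold rd
    ring
  have hge : ∀ k, (-z) * (hh (fac G k) : ℝ) ≤ rd (gg (fac G k)) l := by
    intro k
    have := h (.inl (fac G k))
    rw [hvalv] at this
    linarith
  have hHL : Lam ≤ H := by
    have t0 := mul_le_mul_of_nonneg_left (hge 0) (hlam 0)
    have t1 := mul_le_mul_of_nonneg_left (hge 1) (hlam 1)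
    have t2 := mul_le_mul_of_nonneg_left (hge 2) (hlam 2)
    have t3 := mul_le_mul_of_nonneg_left (hge 3) (hlam 3)
    have : (-z) * Lam ≤ (-z) * H := by
      rw [← e1, e2, hLam]
      linarith
    exact le_of_mul_le_mul_left this (by linarith)
  -- pairing with `nn G`
  have e3 : rd (nn G) (fun i => ∑ v, m v * (gg v i : ℝ)) = (ww G : ℝ) * Lam := by
    have f0 := fac_slack G 0
    have f1 := fac_slack G 1
    have f2 := fac_slack G 2
    have f3 := fac_slack G 3
    unfold rd at f0 f1 f2 f3 ⊢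
    have q0 := hs 0
    have q1 := hs 1
    have q2 := hs 2
    have q3 := hs 3
    change (nn G 0 : ℝ) * (∑ v, m v * (gg v 0 : ℝ)) + (nn G 1 : ℝ) * (∑ v, m v * (gg v 1 : ℝ)) +
      (nn G 2 : ℝ) * (∑ v, m v * (gg v 2 : ℝ)) + (nn G 3 : ℝ) * (∑ v, m v * (gg v 3 : ℝ)) = _
    rw [q0, q1, q2, q3, hLam]
    linear_combination lam 0 * f0 + lam 1 * f1 + lam 2 * f2 + lam 3 * f3
  have e4 : rd (nn G) (fun i => ∑ v, m v * (gg v i : ℝ)) =
      (ww G : ℝ) * H + ∑ v, m v * (slack (.inl v) (.inr G) : ℝ) := by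
    rw [rd_sum, hH, Finset.mul_sum, ← Finset.sum_add_distrib]
    apply Finset.sum_congr rfl
    intro v _
    rw [slack_T]
    ring
  have e5 : ∑ v, m v * (slack (.inl v) (.inr G) : ℝ) ≤ 0 := by
    have : (ww G : ℝ) * Lam ≤ (ww G : ℝ) * H := mul_le_mul_of_nonneg_left hHL hw.le
    linarith
  have e6 : ∀ v, m v * (slack (.inl v) (.inr G) : ℝ) = 0 := by
    have hnn : ∀ v ∈ (Finset.univ : Finset (Fin 10)),
        0 ≤ m v * (slack (.inl v) (.inr G) : ℝ) := fun v _ => mul_nonneg (hm0 v) (slack_nonneg _ _)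
    have h0 := (Finset.sum_eq_zero_iff_of_nonneg hnn).1 (le_antisymm e5 (Finset.sum_nonneg hnn))
    exact fun v => h0 v (Finset.mem_univ v)
  apply closed_sub G
  intro i hi
  rcases i with v | G'
  · refine ⟨v, rfl, ?_⟩
    have hmv : m v = 1 := by simp only [hm]; exact if_pos hi
    have := e6 v
    rw [hmv, one_mul] at this
    exact (inc_iff _ _).2 this
  · exfalso
    have hi' : val l z (.inr G') = 0 := hi
    have hx : ∀ i, (0 : ℝ) ≤ (xa (.inr G') i : ℝ) := fun i => xa_nonneg _ i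
    have hx5 : x5 (.inr G') = - ww G' := rfl
    have hw' : (0 : ℝ) < (ww G' : ℝ) := by exact_mod_cast ww_pos G'
    unfold val rd at hi'
    rw [hx5] at hi'
    push_cast at hi'
    have p0 := mul_nonneg (hx 0) (hl 0)
    have p1 := mul_nonneg (hx 1) (hl 1)
    have p2 := mul_nonneg (hx 2) (hl 2)
    have p3 := mul_nonneg (hx 3) (hl 3)
    have p5 : 0 < z * -(ww G' : ℝ) := mul_pos_of_neg_of_neg hz (by linarith)
    linarith

theorem closed_zero (l : Fin 4 → ℝ) (z : ℝ) (h : ∀ i, 0 ≤ val l z i) :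
    Closed {i | val l z i = 0} := by
  rcases le_or_gt 0 z with hz | hz
  · exact closed_A l z hz h
  · exact closed_B l z hz h

/-- every closed set is the zero set of a nonnegative functional -/
theorem exists_of_closed (M : Set I) (hM : Closed M) :
    ∃ (l : Fin 4 → ℝ) (z : ℝ), (∀ i, 0 ≤ val l z i) ∧ {i | val l z i = 0} = M := by
  classical
  set J : Finset I := Finset.univ.filter (fun j => ∀ k ∈ M, inc k j = true) with hJ
  have hv : ∀ i, val (fun k => ∑ j ∈ J, (aa j k : ℝ)) (∑ j ∈ J, (a5 j : ℝ)) i =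
      ∑ j ∈ J, (slack i j : ℝ) := by
    intro i
    unfold val rd
    simp only [Finset.mul_sum, Finset.sum_mul, ← Finset.sum_add_distrib]
    apply Finset.sum_congr rfl
    intro j _
    rw [slack_real]
    unfold rd
    ring
  refine ⟨fun k => ∑ j ∈ J, (aa j k : ℝ), ∑ j ∈ J, (a5 j : ℝ), ?_, ?_⟩
  · intro i
    rw [hv]
    exact Finset.sum_nonneg (fun j _ => slack_nonneg i j)
  · ext i
    change val _ _ i = 0 ↔ i ∈ M
    rw [hv, Finset.sum_eq_zero_iff_of_nonneg (fun j _ => slack_nonneg i j)]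
    constructor
    · intro h0
      apply hM i
      intro j hj
      rw [inc_iff]
      exact h0 j (by rw [hJ, Finset.mem_filter]; exact ⟨Finset.mem_univ _, hj⟩)
    · intro hi j hj
      rw [hJ, Finset.mem_filter] at hj
      exact (inc_iff _ _).1 (hj.2 i hi)

end W302.SP
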