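import Pool.Agent.W302.SP.Closed

set_option autoImplicit false

namespace W302.SP

/-! ### the self-duality -/

def alGT : List (Fin 28) := [10, 21, 11, 20, 22, 9, 19, 17, 18, 5, 0, 2, 24, 26, 16, 27, 14, 7, 8, 6,
  3, 1, 4, 25, 12, 23, 13, 15]
def alG (G : Fin 28) : Fin 28 := alGT.getD G.1 0

/-- vertices to facets -/
def ff : I → I
  | .inl v => .inl v
  | .inr G => .inr (alG G)
/-- facets to vertices -/
def hf : I → I
  | .inl v => .inl (al v)
  | .inr G => .inr G

theorem inc_dual : ∀ i j : I, inc i j = inc (hf j) (ff i) := by decide +kernel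
theorem ff_surj : ∀ k : I, ∃ i : I, ff i = k := by decide +kernel
theorem hf_surj : ∀ k : I, ∃ i : I, hf i = k := by decide +kernel

abbrev Lat : Type := {M : Set I // Closed M}

def Dset (M : Set I) : Set I := {k | ∃ j, (∀ i ∈ M, inc i j = true) ∧ hf j = k}
def Dset' (N : Set I) : Set I := {i | ∀ k ∈ N, inc k (ff i) = true}

theorem Dset_closed (M : Set I) : Closed (Dset M) := by
  intro i0 H
  obtain ⟨j0, rfl⟩ := hf_surj i0
  refine ⟨j0, ?_, rfl⟩
  intro i hi
  rw [inc_dual]
  apply H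
  rintro k ⟨j, hj, rfl⟩
  rw [← inc_dual]
  exact hj i hi

theorem Dset'_closed (N : Set I) : Closed (Dset' N) := by
  intro i0 H k hk
  obtain ⟨j, rfl⟩ := hf_surj k
  rw [← inc_dual]
  apply H
  intro i hi
  rw [inc_dual]
  exact hi _ hk

theorem D'D (M : Set I) (hM : Closed M) : Dset' (Dset M) = M := by
  ext i
  constructor
  · intro h
    apply hM
    intro j hj
    rw [inc_dual]
    exact h _ ⟨j, hj, rfl⟩
  · rintro hi k ⟨j, hj, rfl⟩
    rw [← inc_dual]
    exact hj i hi

theorem DD' (N : Set I) (hN : Closed N) : Dset (Dset' N) = N := by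
  ext k
  constructor
  · rintro ⟨j, hj, rfl⟩
    apply hN
    intro b hb
    obtain ⟨i, rfl⟩ := ff_surj b
    rw [← inc_dual]
    exact hj i hb
  · intro hk
    obtain ⟨j, rfl⟩ := hf_surj k
    refine ⟨j, ?_, rfl⟩
    intro i hi
    rw [inc_dual]
    exact hi _ hk

theorem Dset_anti {M M' : Set I} (h : M ⊆ M') : Dset M' ⊆ Dset M := by
  rintro k ⟨j, hj, rfl⟩
  exact ⟨j, fun i hi => hj i (h hi), rfl⟩

theorem Dset'_anti {M M' : Set I} (h : M ⊆ M') : Dset' M' ⊆ Dset' M :=
  fun _ hi k hk => hi k (h hk)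

/-- the lattice of closed sets is self-dual -/
def latDual : Lat ≃o Latᵒᵈ where
  toFun M := OrderDual.toDual ⟨Dset M.1, Dset_closed M.1⟩
  invFun N := ⟨Dset' (OrderDual.ofDual N).1, Dset'_closed _⟩
  left_inv M := Subtype.ext (D'D M.1 M.2)
  right_inv N := by
    apply congrArg OrderDual.toDual
    exact Subtype.ext (DD' (OrderDual.ofDual N).1 (OrderDual.ofDual N).2)
  map_rel_iff' := by
    intro M M'
    constructor
    · intro h
      have h1 : Dset M'.1 ⊆ Dset M.1 := h
      have h2 := Dset'_anti h1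
      rw [D'D M.1 M.2, D'D M'.1 M'.2] at h2
      exact h2
    · intro h
      exact Dset_anti h

/-! ### anti-automorphisms -/

theorem vtx_cl (i : I) : Closed {i} := by
  intro k hk
  by_contra hne
  obtain ⟨j, hj1, hj2⟩ := vtx_closed i k (fun h => hne (by rw [h]; rfl))
  have := hk j (fun k' hk' => by rw [Set.mem_singleton_iff.1 hk']; exact hj1)
  rw [this] at hj2
  exact Bool.noConfusion hj2

theorem fct_cl (j : I) : Closed {i | inc i j = true} := by
  intro k hk
  exact hk j (fun _ h => h)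

theorem univ_cl : Closed Set.univ := fun _ _ => trivial

theorem inc_false_v : ∀ i : I, ∃ j : I, inc i j = false := by decide +kernel
theorem inc_false_f : ∀ j : I, ∃ i : I, inc i j = false := by decide +kernel

theorem empty_cl : Closed ∅ := by
  intro i h
  obtain ⟨j, hj⟩ := inc_false_v i
  rw [h j (fun k hk => absurd hk (Set.notMem_empty k))] at hj
  exact Bool.noConfusion hj

def vtx (i : I) : Lat := ⟨{i}, vtx_cl i⟩
def fct (j : I) : Lat := ⟨{i | inc i j = true}, fct_cl j⟩
def lbot : Lat := ⟨∅, empty_cl⟩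
def ltop : Lat := ⟨Set.univ, univ_cl⟩

theorem vtx_le_fct (i j : I) : vtx i ≤ fct j ↔ inc i j = true := by
  change ({i} : Set I) ⊆ {i | inc i j = true} ↔ _
  rw [Set.singleton_subset_iff]
  rfl

theorem vtx_le (i : I) (M : Lat) : vtx i ≤ M ↔ i ∈ M.1 := by
  change ({i} : Set I) ⊆ M.1 ↔ _
  rw [Set.singleton_subset_iff]

theorem le_fct_of_ne_top (M : Lat) (h : M ≠ ltop) : ∃ j, M ≤ fct j := by
  by_contra hcon
  push Not at hcon
  apply h
  apply Subtype.ext
  apply Set.eq_univ_of_forall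
  intro i
  apply M.2
  intro j hj
  exact absurd (show M ≤ fct j from fun k hk => hj k hk) (hcon j)

theorem le_vtx (i : I) (M : Lat) (h : M ≤ vtx i) : M = lbot ∨ M = vtx i := by
  have h' : M.1 ⊆ {i} := h
  rcases Set.subset_singleton_iff_eq.1 h' with h1 | h1
  · exact Or.inl (Subtype.ext h1)
  · exact Or.inr (Subtype.ext h1)

theorem vtx_inj {i i' : I} (h : vtx i = vtx i') : i = i' := by
  have : ({i} : Set I) = {i'} := congrArg Subtype.val h
  exact Set.singleton_injective this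

theorem fct_inj {j j' : I} (h : fct j = fct j') : j = j' := by
  apply fct_anti
  intro i hi
  have : ({i | inc i j = true} : Set I) = {i | inc i j' = true} := congrArg Subtype.val h
  have h2 : i ∈ ({i | inc i j = true} : Set I) := hi
  rw [this] at h2
  exact h2

theorem extract (ps : Lat → Lat) (hps : ∀ M M', M ≤ M' ↔ ps M' ≤ ps M)
    (hsurj : ∀ N, ∃ M, ps M = N) :
    ∃ f h : I → I, (∀ i, ps (vtx i) = fct (f i)) ∧ (∀ j, ps (fct j) = vtx (h j)) ∧
      Function.Injective f ∧ Function.Injective h ∧ ∀ i j, inc i j = inc (h j) (f i) := by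
  have hinj : ∀ M M', ps M = ps M' → M = M' := by
    intro M M' h
    exact le_antisymm ((hps M M').2 (le_of_eq h.symm)) ((hps M' M).2 (le_of_eq h))
  have hbot : ps lbot = ltop := by
    obtain ⟨M, hM⟩ := hsurj ltop
    apply le_antisymm
    · exact fun _ _ => trivial
    · rw [← hM]
      exact (hps lbot M).1 (fun k hk => absurd hk (Set.notMem_empty k))
  have htop : ps ltop = lbot := by
    obtain ⟨M, hM⟩ := hsurj lbot
    apply le_antisymm
    · rw [← hM]
      exact (hps M ltop).1 (fun _ _ => trivial)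
    · exact fun k hk => absurd hk (Set.notMem_empty k)
  have hvb : ∀ i, vtx i ≠ lbot := by
    intro i h
    have : ({i} : Set I) = ∅ := congrArg Subtype.val h
    exact Set.singleton_ne_empty i this
  have hft : ∀ j, fct j ≠ ltop := by
    intro j h
    have h1 : ({i | inc i j = true} : Set I) = Set.univ := congrArg Subtype.val h
    obtain ⟨i, hi⟩ := inc_false_f j
    have h2 : i ∈ ({i | inc i j = true} : Set I) := by rw [h1]; trivial
    rw [show inc i j = true from h2] at hi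
    exact Bool.noConfusion hi
  have hf : ∀ i, ∃ j, ps (vtx i) = fct j := by
    intro i
    have h1 : ps (vtx i) ≠ ltop := by
      intro h
      rw [← hbot] at h
      exact hvb i (hinj _ _ h)
    obtain ⟨j, hj⟩ := le_fct_of_ne_top _ h1
    obtain ⟨M, hM⟩ := hsurj (fct j)
    rw [← hM] at hj
    have h2 := (hps M (vtx i)).2 hj
    rcases le_vtx i M h2 with h3 | h3
    · exfalso
      rw [h3, hbot] at hM
      exact hft j hM.symm
    · exact ⟨j, by rw [← h3, hM]⟩
  have hh' : ∀ j, ∃ i, ps (fct j) = vtx i := by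
    intro j
    have h1 : ps (fct j) ≠ lbot := by
      intro h
      rw [← htop] at h
      exact hft j (hinj _ _ h)
    have h2 : (ps (fct j)).1.Nonempty := by
      rw [Set.nonempty_iff_ne_empty]
      intro h
      exact h1 (Subtype.ext h)
    obtain ⟨i, hi⟩ := h2
    have h3 : vtx i ≤ ps (fct j) := (vtx_le i _).2 hi
    obtain ⟨M, hM⟩ := hsurj (vtx i)
    rw [← hM] at h3
    have h4 := (hps (fct j) M).2 h3
    have h5 : M ≠ ltop := by
      intro h
      rw [h, htop] at hM
      exact hvb i hM.symm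
    obtain ⟨j', hj'⟩ := le_fct_of_ne_top _ h5
    have h6 : j = j' := by
      apply fct_anti
      intro k hk
      exact (le_trans h4 hj') hk
    have h7 : M = fct j := by
      apply le_antisymm
      · rw [h6]; exact hj'
      · exact h4
    exact ⟨i, by rw [← h7, hM]⟩
  choose f hf using hf
  choose h hh' using hh'
  refine ⟨f, h, hf, hh', ?_, ?_, ?_⟩
  · intro i i' hii
    apply vtx_inj
    apply hinj
    rw [hf, hf, hii]
  · intro j j' hjj
    apply fct_inj
    apply hinj
    rw [hh', hh', hjj]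
  · intro i j
    rw [Bool.eq_iff_iff, ← vtx_le_fct, ← vtx_le_fct, ← hf, ← hh']
    exact hps _ _

/-! ### classification -/

def degV (i : I) : ℕ := ∑ j : I, if inc i j = true then 1 else 0
def degF (j : I) : ℕ := ∑ i : I, if inc i j = true then 1 else 0

theorem degV_inl : ∀ v : Fin 10, 4 < degV (.inl v) := by decide +kernel
theorem degF_inl : ∀ v : Fin 10, 4 < degF (.inl v) := by decide +kernel
theorem degV_inr : ∀ G : Fin 28, degV (.inr G) = 4 := by decide +kernel
theorem degF_inr : ∀ G : Fin 28, degF (.inr G) = 4 := by decide +kernel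

def e2 (u v : Fin 10) : ℕ := ∑ G : Fin 28, if (mem u G && mem v G) = true then 1 else 0

def e2T : List (List ℕ) := [[12, 4, 5, 5, 3, 6, 5, 5, 0, 3],
  [4, 12, 5, 5, 3, 0, 5, 5, 6, 3],
  [5, 5, 13, 4, 5, 5, 2, 4, 4, 5],
  [5, 5, 4, 10, 6, 3, 4, 0, 3, 0],
  [3, 3, 5, 6, 11, 4, 5, 0, 5, 2],
  [6, 0, 5, 3, 4, 10, 5, 3, 0, 4],
  [5, 5, 2, 4, 5, 5, 13, 4, 4, 5],
  [5, 5, 4, 0, 0, 3, 4, 10, 3, 6],
  [0, 6, 4, 3, 5, 0, 4, 3, 10, 5],
  [3, 3, 5, 0, 2, 4, 5, 6, 5, 11]]
def et (u v : Fin 10) : ℕ := (e2T.getD u.1 []).getD v.1 0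

theorem e2_eq : ∀ u v : Fin 10, e2 u v = et u v := by decide +kernel

def BB (b0 b1 b2 b3 b4 b5 b6 b7 b8 b9 : Fin 10) (v : Fin 10) : Fin 10 :=
  [b0, b1, b2, b3, b4, b5, b6, b7, b8, b9].getD v.1 0

def okB (b : Fin 10 → Fin 10) : Bool :=
  (List.finRange 28).all (fun G => (List.finRange 28).any (fun G' =>
    mem (b (fac G 0)) G' && mem (b (fac G 1)) G' && mem (b (fac G 2)) G' && mem (b (fac G 3)) G'))

def isGood (b : Fin 10 → Fin 10) : Bool :=
  (List.finRange 10).all (fun v => b v == v) || (List.finRange 10).all (fun v => b v == al v)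

set_option synthInstance.maxSize 4000 in
set_option synthInstance.maxHeartbeats 4000000 in
theorem check10 : ∀ b0 : Fin 10, et b0 b0 = et 0 0 →
    ∀ b1 : Fin 10, (et b1 b1 = et 1 1 ∧ et b0 b1 = et 0 1) →
    ∀ b2 : Fin 10, (et b2 b2 = et 2 2 ∧ et b0 b2 = et 0 2 ∧ et b1 b2 = et 1 2) →
    ∀ b3 : Fin 10, (et b3 b3 = et 3 3 ∧ et b0 b3 = et 0 3 ∧ et b1 b3 = et 1 3 ∧
      et b2 b3 = et 2 3) →
    ∀ b4 : Fin 10, (et b4 b4 = et 4 4 ∧ et b0 b4 = et 0 4 ∧ et b1 b4 = et 1 4 ∧
      et b2 b4 = et 2 4 ∧ et b3 b4 = et 3 4) →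
    ∀ b5 : Fin 10, (et b5 b5 = et 5 5 ∧ et b0 b5 = et 0 5 ∧ et b1 b5 = et 1 5 ∧
      et b2 b5 = et 2 5 ∧ et b3 b5 = et 3 5 ∧ et b4 b5 = et 4 5) →
    ∀ b6 : Fin 10, (et b6 b6 = et 6 6 ∧ et b0 b6 = et 0 6 ∧ et b1 b6 = et 1 6 ∧
      et b2 b6 = et 2 6 ∧ et b3 b6 = et 3 6 ∧ et b4 b6 = et 4 6 ∧ et b5 b6 = et 5 6) →
    ∀ b7 : Fin 10, (et b7 b7 = et 7 7 ∧ et b0 b7 = et 0 7 ∧ et b1 b7 = et 1 7 ∧
      et b2 b7 = et 2 7 ∧ et b3 b7 = et 3 7 ∧ et b4 b7 = et 4 7 ∧ et b5 b7 = et 5 7 ∧
      et b6 b7 = et 6 7) →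
    ∀ b8 : Fin 10, (et b8 b8 = et 8 8 ∧ et b0 b8 = et 0 8 ∧ et b1 b8 = et 1 8 ∧
      et b2 b8 = et 2 8 ∧ et b3 b8 = et 3 8 ∧ et b4 b8 = et 4 8 ∧ et b5 b8 = et 5 8 ∧
      et b6 b8 = et 6 8 ∧ et b7 b8 = et 7 8) →
    ∀ b9 : Fin 10, (et b9 b9 = et 9 9 ∧ et b0 b9 = et 0 9 ∧ et b1 b9 = et 1 9 ∧
      et b2 b9 = et 2 9 ∧ et b3 b9 = et 3 9 ∧ et b4 b9 = et 4 9 ∧ et b5 b9 = et 5 9 ∧
      et b6 b9 = et 6 9 ∧ et b7 b9 = et 7 9 ∧ et b8 b9 = et 8 9) →
    okB (BB b0 b1 b2 b3 b4 b5 b6 b7 b8 b9) = true →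
    isGood (BB b0 b1 b2 b3 b4 b5 b6 b7 b8 b9) = true := by
  decide +kernel

theorem auto_cases (b : Fin 10 → Fin 10) (d : Fin 28 → Fin 28) (hd : Function.Injective d)
    (h : ∀ v G, mem v G = mem (b v) (d G)) :
    (∀ v, b v = v) ∨ (∀ v, b v = al v) := by
  have hdb : Function.Bijective d := Finite.injective_iff_bijective.1 hd
  have he : ∀ u v, et (b u) (b v) = et u v := by
    intro u v
    rw [← e2_eq, ← e2_eq]
    unfold e2
    rw [← hdb.sum_comp (fun G => if (mem (b u) G && mem (b v) G) = true then 1 else 0)]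
    apply Finset.sum_congr rfl
    intro G _
    rw [← h u G, ← h v G]
  have hB : b = BB (b 0) (b 1) (b 2) (b 3) (b 4) (b 5) (b 6) (b 7) (b 8) (b 9) := by
    funext v
    fin_cases v <;> rfl
  have hok : okB b = true := by
    unfold okB
    rw [List.all_eq_true]
    intro G _
    rw [List.any_eq_true]
    refine ⟨d G, List.mem_finRange _, ?_⟩
    rw [← h, ← h, ← h, ← h]
    have : ∀ k, mem (fac G k) G = true := fun k => (mem_iff _ _).2 ⟨k, rfl⟩
    rw [this 0, this 1, this 2, this 3]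
    rfl
  have key := check10 (b 0) (he 0 0) (b 1) ⟨he 1 1, he 0 1⟩ (b 2) ⟨he 2 2, he 0 2, he 1 2⟩
    (b 3) ⟨he 3 3, he 0 3, he 1 3, he 2 3⟩ (b 4) ⟨he 4 4, he 0 4, he 1 4, he 2 4, he 3 4⟩
    (b 5) ⟨he 5 5, he 0 5, he 1 5, he 2 5, he 3 5, he 4 5⟩
    (b 6) ⟨he 6 6, he 0 6, he 1 6, he 2 6, he 3 6, he 4 6, he 5 6⟩
    (b 7) ⟨he 7 7, he 0 7, he 1 7, he 2 7, he 3 7, he 4 7, he 5 7, he 6 7⟩
    (b 8) ⟨he 8 8, he 0 8, he 1 8, he 2 8, he 3 8, he 4 8, he 5 8, he 6 8, he 7 8⟩
    (b 9) ⟨he 9 9, he 0 9, he 1 9, he 2 9, he 3 9, he 4 9, he 5 9, he 6 9, he 7 9, he 8 9⟩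
  rw [← hB] at key
  have hg := key hok
  unfold isGood at hg
  rw [Bool.or_eq_true, List.all_eq_true, List.all_eq_true] at hg
  rcases hg with hg | hg
  · left
    intro v
    exact beq_iff_eq.1 (hg v (List.mem_finRange v))
  · right
    intro v
    exact beq_iff_eq.1 (hg v (List.mem_finRange v))

theorem k_id : ¬ ∀ v u : Fin 10, inc (.inl v) (.inl u) = inc (.inl u) (.inl v) := by
  decide +kernel
theorem k_al : ¬ ∀ v u : Fin 10, inc (.inl v) (.inl u) = inc (.inl (al u)) (.inl (al v)) := by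
  decide +kernel

theorem classify (f h : I → I) (hfi : Function.Injective f) (hhi : Function.Injective h)
    (hinc : ∀ i j, inc i j = inc (h j) (f i)) : ∀ v, h (f (.inl v)) = .inl (al v) := by
  have hfb : Function.Bijective f := Finite.injective_iff_bijective.1 hfi
  have hhb : Function.Bijective h := Finite.injective_iff_bijective.1 hhi
  have d1 : ∀ i, degV i = degF (f i) := by
    intro i
    unfold degV degF
    rw [← hhb.sum_comp (fun k => if inc k (f i) = true then 1 else 0)]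
    apply Finset.sum_congr rfl
    intro j _
    rw [hinc i j]
  have d2 : ∀ j, degF j = degV (h j) := by
    intro j
    unfold degV degF
    rw [← hfb.sum_comp (fun k => if inc (h j) k = true then 1 else 0)]
    apply Finset.sum_congr rfl
    intro i _
    rw [hinc i j]
  have f1 : ∀ v : Fin 10, ∃ u : Fin 10, f (.inl v) = .inl u := by
    intro v
    rcases hh : f (.inl v) with u | G
    · exact ⟨u, rfl⟩
    · exfalso
      have := d1 (.inl v)
      rw [hh, degF_inr] at this
      have h2 := degV_inl v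
      omega
  have h1 : ∀ v : Fin 10, ∃ u : Fin 10, h (.inl v) = .inl u := by
    intro v
    rcases hh : h (.inl v) with u | G
    · exact ⟨u, rfl⟩
    · exfalso
      have := d2 (.inl v)
      rw [hh, degV_inr] at this
      have h2 := degF_inl v
      omega
  have f2 : ∀ G : Fin 28, ∃ G' : Fin 28, f (.inr G) = .inr G' := by
    intro G
    rcases hh : f (.inr G) with u | G'
    · exfalso
      have := d1 (.inr G)
      rw [hh, degV_inr] at this
      have h2 := degF_inl u
      omega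
    · exact ⟨G', rfl⟩
  have h2 : ∀ G : Fin 28, ∃ G' : Fin 28, h (.inr G) = .inr G' := by
    intro G
    rcases hh : h (.inr G) with u | G'
    · exfalso
      have := d2 (.inr G)
      rw [hh, degF_inr] at this
      have h2 := degV_inl u
      omega
    · exact ⟨G', rfl⟩
  choose be hbe using f1
  choose ga hga using h1
  choose ep hep using f2
  choose de hde using h2
  have hdei : Function.Injective de := by
    intro G G' hG
    have : h (.inr G) = h (.inr G') := by rw [hde, hde, hG]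
    exact Sum.inr_injective (hhi this)
  have hepi : Function.Injective ep := by
    intro G G' hG
    have : f (.inr G) = f (.inr G') := by rw [hep, hep, hG]
    exact Sum.inr_injective (hfi this)
  have a1 := auto_cases be de hdei (by
    intro v G
    have := hinc (.inl v) (.inr G)
    rw [hde, hbe] at this
    exact this)
  have a2 := auto_cases ga ep hepi (by
    intro v G
    have := hinc (.inr G) (.inl v)
    rw [hga, hep] at this
    exact this)
  have hK : ∀ v u : Fin 10, inc (.inl v) (.inl u) = inc (.inl (ga u)) (.inl (be v)) := by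
    intro v u
    have := hinc (.inl v) (.inl u)
    rw [hga, hbe] at this
    exact this
  intro v
  rw [hbe, hga]
  congr 1
  rcases a1 with a1 | a1 <;> rcases a2 with a2 | a2
  · exfalso
    apply k_id
    intro v u
    rw [hK v u, a1, a2]
  · rw [a1, a2]
  · rw [a1, a2]
  · exfalso
    apply k_al
    intro v u
    rw [hK v u, a1, a2]

end W302.SP
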