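import Mathlib

/-!
Data of the 4-polytope `P` with 38 vertices and 38 facets which is self-dual but has no self-polar
realization.  `T` is a simplicial 3-sphere with 10 vertices `0..9` and 29 facets: the 28 facets `fac G`
and the missing facet `F = {2,4,6,9}`.
-/

set_option autoImplicit false

namespace W302.SP

def gT : List (List ℤ) := [[10, 2, 11, 2], [3, 10, 5, 6], [1, 0, 0, 0], [3, 15, 6, 4], [0, 1, 0, 0], [14, 1, 13, 1], [0, 0, 1, 0], [5, 3, 10, 13], [2, 14, 2, 15], [0, 0, 0, 1]]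
def facT : List (List (Fin 10)) := [[0, 1, 2, 3], [1, 2, 3, 4], [0, 2, 3, 5], [0, 3, 4, 5], [2, 3, 4, 5], [0, 1, 3, 6], [0, 3, 4, 6], [0, 4, 5, 6], [2, 4, 5, 6], [0, 1, 2, 7], [0, 1, 6, 7], [0, 5, 6, 7], [1, 2, 4, 8], [1, 3, 4, 8], [1, 3, 6, 8], [3, 4, 6, 8], [1, 2, 7, 8], [0, 2, 5, 9], [2, 5, 6, 9], [0, 2, 7, 9], [0, 5, 7, 9], [1, 6, 7, 9], [5, 6, 7, 9], [2, 4, 8, 9], [1, 6, 8, 9], [4, 6, 8, 9], [1, 7, 8, 9], [2, 7, 8, 9]]
def nT : List (List ℤ) := [[0, 4, 18, 19], [0, 0, 2, 1], [0, 1, 11, 21], [1, 0, 1, 6], [0, 0, 3, 7], [36, 14, 0, 35], [2, 0, 0, 7], [1, 0, 0, 4], [0, 0, 0, 1], [0, 31, 42, 1], [28, 19, 0, 11], [10, 39, 0, 1], [0, 0, 3, 1], [3, 0, 2, 1], [53, 2, 0, 5], [11, 0, 0, 1], [0, 66, 91, 1], [0, 2, 1, 0], [0, 1, 0, 0], [0, 1, 1, 0], [1, 6, 1, 0], [7, 2, 0, 0], [2, 9, 0, 0], [0, 0, 1, 0], [4, 1, 0, 0], [1, 0, 0, 0], [1, 1, 1, 0], [0, 8, 11, 0]]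
def wT : List ℤ := [244, 16, 165, 33, 46, 458, 34, 18, 1, 526, 340, 180, 21, 25, 209, 37, 1121, 15, 1, 13, 33, 41, 37, 2, 22, 2, 18, 134]
def ddT : List (List (List ℤ)) := [[[0, -64, 200, -60], [0, -416, -286, 1989], [8784, 1584, -8244, -162], [0, 5460, 780, -9750]], [[0, 0, -44, 66], [48, 0, -18, -9], [0, 0, 6, -5], [0, 64, -200, 60]], [[0, -46, -11, 189], [165, -33, -198, 297], [0, 315, 0, -315], [0, 416, 286, -1989]], [[-46, 0, 53, -45], [15, 0, -18, 24], [-165, 33, 198, -297], [32, 0, -34, 27]], [[46, 0, -53, 45], [0, 0, -3, 39], [0, 46, 11, -189], [0, 0, 44, -66]], [[16750, -2010, 0, -5025], [-308, -476, 0, 2016], [584, 3942, 0, -6862], [-8784, -1584, 8244, 162]], [[300, 0, 0, -225], [-2, 0, 0, 10], [308, 476, 0, -2016], [-32, 0, 34, -27]], [[-1, 0, 0, 14], [0, 702, 0, -702], [2, 0, 0, -10], [-15, 0, 18, -24]], [[1, 0, 0, -14], [0, 1, 0, -1], [0, 0, 0, 1], [0, 0, 3, -39]], [[0, -35, 784, -595],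 [0, 123, -20, -13], [14728, -546, -14280, 5446], [0, -5460, -780, 9750]], [[1232, -99, 0, -451], [-1640, 9840, 0, -1640], [-14728, 546, 14280, -5446], [-584, -3942, 0, 6862]], [[-10, 177, 0, -37], [1640, -9840, 0, 1640], [-150, -207, 180, -33], [0, -702, 0, 702]], [[0, 0, 15, -2], [63, 0, -33, -4], [0, 1386, -1452, -1100], [0, 0, -6, 5]], [[164, 0, -74, -12], [-63, 0, 33, 4], [698, 50, -418, -84], [-48, 0, 18, 9]], [[338, -74, 0, 24], [-330, 165, 0, -110], [-698, -50, 418, 84], [-16750, 2010, 0, 5025]], [[15, 0, 0, -2], [-338, 74, 0, -24], [-164, 0, 74, 12], [-300, 0, 0, 225]], [[0, 124, 137, -134], [1121, -67, -517, -18], [0, -1386, 1452, 1100], [0, 35, -784, 595]], [[0, 13, -1, 0], [15, 24, -18, 0], [0, -11, 2, 0], [0, -315, 0, 315]], [[2, -28, 0, 0], [0, 1, 0, 0], [0, -13, 1, 0], [0, -1, 0, 1]], [[0, -30, 9, 0], [13, 45, -20, 0], [0, 11, -2, 0], [0, -123, 20, 13]], [[29, 75, -37, 0], [-13, -45,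 20, 0], [-15, -24, 18, 0], [150, 207, -180, 33]], [[-177, 295, 0, 0], [-85, 5, 41, 0], [10, -3, 0, 0], [-1232, 99, 0, 451]], [[177, -295, 0, 0], [-29, -75, 37, 0], [-2, 28, 0, 0], [10, -177, 0, 37]], [[2, 0, -2, 0], [0, 16, -112, 0], [0, 0, 1, 0], [0, 0, -15, 2]], [[14, -2, 0, 0], [-50, 4, 22, 0], [-10, 3, 0, 0], [330, -165, 0, 110]], [[-14, 2, 0, 0], [-2, 0, 2, 0], [1, 0, 0, 0], [-15, 0, 0, 2]], [[-134, 10, 64, 0], [50, -4, -22, 0], [85, -5, -41, 0], [-1121, 67, 517, 18]], [[134, -10, -64, 0], [0, -16, 112, 0], [0, 30, -9, 0], [0, -124, -137, 134]]]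

/-- positions of the ten vertices of `T` (first four homogeneous coordinates) -/
def gg (v : Fin 10) (i : Fin 4) : ℤ := (gT.getD v.1 []).getD i.1 0
/-- is `v` a vertex of the missing facet `F`? -/
def inF (v : Fin 10) : Bool := v == 2 || v == 4 || v == 6 || v == 9
/-- last coordinate -/
def hh (v : Fin 10) : ℤ := if inF v then 0 else 1
def fac (G : Fin 28) (k : Fin 4) : Fin 10 := (facT.getD G.1 []).getD k.1 0
def nn (G : Fin 28) (i : Fin 4) : ℤ := (nT.getD G.1 []).getD i.1 0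
def ww (G : Fin 28) : ℤ := wT.getD G.1 0
def dd (G : Fin 28) (k i : Fin 4) : ℤ := ((ddT.getD G.1 []).getD k.1 []).getD i.1 0
def mem (v : Fin 10) (G : Fin 28) : Bool :=
  fac G 0 == v || fac G 1 == v || fac G 2 == v || fac G 3 == v
/-- the twist on `F` -/
def gp (v : Fin 10) : Fin 10 := if v = 2 then 4 else if v = 4 then 6 else if v = 6 then 9 else 2
/-- the vertices of `F` in the order of the coordinates -/
def vF (u : Fin 4) : Fin 10 := if u = 0 then 2 else if u = 1 then 4 else if u = 2 then 6 else 9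
/-- the involution -/
def al (v : Fin 10) : Fin 10 :=
  if v = 2 then 6 else if v = 6 then 2 else if v = 3 then 7 else if v = 7 then 3 else
  if v = 4 then 9 else if v = 9 then 4 else v

abbrev I : Type := Fin 10 ⊕ Fin 28

/-- incidence: is the vertex `i` on the facet `j`? -/
def inc : I → I → Bool
  | .inl v, .inl u => inF v && inF u && !(gp v == u)
  | .inl v, .inr G => mem v G
  | .inr G, .inl u => mem u G
  | .inr _, .inr _ => false

def xa : I → Fin 4 → ℤ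
  | .inl v => gg v
  | .inr G => fun i => nn G (i + 1)
def x5 : I → ℤ
  | .inl v => hh v
  | .inr G => - ww G
def aa : I → Fin 4 → ℤ
  | .inl u => fun i => gg u (i + 1)
  | .inr G => nn G
def a5 : I → ℤ
  | .inl u => hh u
  | .inr G => - ww G

def dot (p q : Fin 4 → ℤ) : ℤ := p 0 * q 0 + p 1 * q 1 + p 2 * q 2 + p 3 * q 3

def slack (i j : I) : ℤ := dot (aa j) (xa i) + a5 j * x5 i

def Dk (G : Fin 28) (k : Fin 4) : ℤ := dot (dd G k) (gg (fac G k))
/-- product of the other three -/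
def PD (G : Fin 28) (k : Fin 4) : ℤ := Dk G (k + 1) * Dk G (k + 2) * Dk G (k + 3)

end W302.SP
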