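import Mathlib

set_option autoImplicit false

/-!
Exposed faces of convex hulls.
-/

namespace W302.SP

variable {E : Type*} [NormedAddCommGroup E] [InnerProductSpace ℝ E]

theorem face_eq_hull {s : Set E} (l : E →L[ℝ] ℝ) (m : ℝ) (h : ∀ x ∈ s, l x ≤ m) :
    {x ∈ convexHull ℝ s | l x = m} = convexHull ℝ {x ∈ s | l x = m} := by
  apply Set.Subset.antisymm
  · set H : Set E := convexHull ℝ {x ∈ s | l x = m} with hH
    have hHm : ∀ x ∈ H, l x = m := by
      have : H ⊆ {x | l x = m} :=
        convexHull_min (fun x hx => hx.2) (convex_hyperplane l.isLinear m)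
      exact fun x hx => this hx
    have hconv : Convex ℝ {x : E | l x < m ∨ x ∈ H} := by
      intro x hx y hy a b ha hb hab
      have hlx : l x ≤ m := by
        rcases hx with hx | hx
        · exact hx.le
        · exact (hHm x hx).le
      have hly : l y ≤ m := by
        rcases hy with hy | hy
        · exact hy.le
        · exact (hHm y hy).le
      by_cases ha0 : a = 0
      · have hb1 : b = 1 := by linarith
        rw [ha0, hb1, zero_smul, one_smul, zero_add]
        exact hy
      by_cases hb0 : b = 0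
      · have ha1 : a = 1 := by linarith
        rw [hb0, ha1, zero_smul, one_smul, add_zero]
        exact hx
      have hap : 0 < a := lt_of_le_of_ne ha (Ne.symm ha0)
      have hbp : 0 < b := lt_of_le_of_ne hb (Ne.symm hb0)
      rcases hx with hx | hx
      · left
        change l (a • x + b • y) < m
        rw [map_add, map_smul, map_smul, smul_eq_mul, smul_eq_mul]
        have h1 : a * l x < a * m := mul_lt_mul_of_pos_left hx hap
        have h2 : b * l y ≤ b * m := mul_le_mul_of_nonneg_left hly hb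
        have h3 : a * m + b * m = m := by rw [← add_mul, hab, one_mul]
        linarith
      · rcases hy with hy | hy
        · left
          change l (a • x + b • y) < m
          rw [map_add, map_smul, map_smul, smul_eq_mul, smul_eq_mul]
          have h1 : a * l x ≤ a * m := mul_le_mul_of_nonneg_left hlx ha
          have h2 : b * l y < b * m := mul_lt_mul_of_pos_left hy hbp
          have h3 : a * m + b * m = m := by rw [← add_mul, hab, one_mul]
          linarith
        · right
          exact convex_convexHull ℝ _ hx hy ha hb hab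
    have hs : s ⊆ {x : E | l x < m ∨ x ∈ H} := by
      intro x hx
      rcases lt_or_eq_of_le (h x hx) with h1 | h1
      · exact Or.inl h1
      · exact Or.inr (subset_convexHull ℝ _ ⟨hx, h1⟩)
    rintro x ⟨hx, hxm⟩
    rcases convexHull_min hs hconv hx with h1 | h1
    · exact absurd hxm (ne_of_lt h1)
    · exact h1
  · apply convexHull_min
    · rintro x ⟨hx, hxm⟩
      exact ⟨subset_convexHull ℝ _ hx, hxm⟩
    · exact (convex_convexHull ℝ s).inter (convex_hyperplane l.isLinear m)

theorem hull_le {s : Set E} (l : E →L[ℝ] ℝ) (m : ℝ) (h : ∀ x ∈ s, l x ≤ m) :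
    ∀ x ∈ convexHull ℝ s, l x ≤ m := by
  intro x hx
  exact convexHull_min (s := s) (t := {x | l x ≤ m}) h (convex_halfSpace_le l.isLinear m) hx

theorem exposed_of {P : Set E} (l : E →L[ℝ] ℝ) (m : ℝ) (h : ∀ x ∈ P, l x ≤ m) :
    IsExposed ℝ P {x ∈ P | l x = m} := by
  rintro ⟨x0, hx0, hx0m⟩
  refine ⟨l, ?_⟩
  ext x
  constructor
  · rintro ⟨hx, hxm⟩
    exact ⟨hx, fun y hy => by rw [hxm]; exact h y hy⟩
  · rintro ⟨hx, hxm⟩
    refine ⟨hx, le_antisymm (h x hx) ?_⟩
    rw [← hx0m]
    exact hxm x0 hx0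

theorem exists_of_exposed {P F : Set E} (hF : IsExposed ℝ P F) (hne : F.Nonempty) :
    ∃ (l : E →L[ℝ] ℝ) (m : ℝ), (∀ x ∈ P, l x ≤ m) ∧ F = {x ∈ P | l x = m} := by
  obtain ⟨l, hl⟩ := hF hne
  obtain ⟨x0, hx0⟩ := hne
  have hx0' := hx0
  rw [hl] at hx0'
  refine ⟨l, l x0, fun x hx => hx0'.2 x hx, ?_⟩
  rw [hl]
  ext x
  constructor
  · rintro ⟨hx, hxm⟩
    exact ⟨hx, le_antisymm (hx0'.2 x hx) (hxm x0 hx0'.1)⟩
  · rintro ⟨hx, hxm⟩
    exact ⟨hx, fun y hy => by rw [hxm]; exact hx0'.2 y hy⟩

theorem exposed_eq_hull {s F : Set E} (hF : IsExposed ℝ (convexHull ℝ s) F) :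
    F = convexHull ℝ {x ∈ s | x ∈ F} := by
  rcases F.eq_empty_or_nonempty with h0 | hne
  · subst h0
    simp
  · obtain ⟨l, m, hl, hFm⟩ := exists_of_exposed hF hne
    have h1 := face_eq_hull l m (fun x hx => hl x (subset_convexHull ℝ s hx))
    have h2 : {x ∈ s | x ∈ F} = {x ∈ s | l x = m} := by
      ext x
      constructor
      · rintro ⟨hx, hxF⟩
        rw [hFm] at hxF
        exact ⟨hx, hxF.2⟩
      · rintro ⟨hx, hxm⟩
        refine ⟨hx, ?_⟩
        rw [hFm]
        exact ⟨subset_convexHull ℝ s hx, hxm⟩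
    rw [h2, ← h1]
    exact hFm

/-- the poset of exposed faces -/
abbrev Faces (P : Set E) : Type _ := {F : Set E // IsExposed ℝ P F}

variable {ι : Type*}

theorem idx_le_iff (p : ι → E) (F F' : Faces (convexHull ℝ (Set.range p))) :
    ({i | p i ∈ F.1} ⊆ {i | p i ∈ F'.1}) ↔ F ≤ F' := by
  constructor
  · intro h
    change F.1 ⊆ F'.1
    rw [exposed_eq_hull F.2, exposed_eq_hull F'.2]
    apply convexHull_mono
    rintro x ⟨⟨i, rfl⟩, hx⟩
    exact ⟨⟨i, rfl⟩, h hx⟩
  · intro h i hi
    exact h hi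

/-- combinatorial description of the face poset -/
noncomputable def faceIso (p : ι → E) (C : Set ι → Prop)
    (H1 : ∀ (l : E →L[ℝ] ℝ) (m : ℝ), (∀ i, l (p i) ≤ m) → C {i | l (p i) = m})
    (H2 : ∀ M, C M → ∃ (l : E →L[ℝ] ℝ) (m : ℝ), (∀ i, l (p i) ≤ m) ∧ {i | l (p i) = m} = M) :
    Faces (convexHull ℝ (Set.range p)) ≃o {M : Set ι // C M} := by
  have hC : ∀ F : Faces (convexHull ℝ (Set.range p)), C {i | p i ∈ F.1} := by
    rintro ⟨F, hF⟩
    rcases F.eq_empty_or_nonempty with h0 | hne
    · subst h0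
      have := H1 0 1 (fun i => by simp)
      simpa using this
    · obtain ⟨l, m, hl, hFm⟩ := exists_of_exposed hF hne
      have h1 : {i | p i ∈ F} = {i | l (p i) = m} := by
        ext i
        change p i ∈ F ↔ l (p i) = m
        rw [hFm]
        exact ⟨fun h => h.2, fun h => ⟨subset_convexHull ℝ _ ⟨i, rfl⟩, h⟩⟩
      change C {i | p i ∈ F}
      rw [h1]
      exact H1 l m (fun i => hl _ (subset_convexHull ℝ _ ⟨i, rfl⟩))
  refine RelIso.ofSurjective
    (OrderEmbedding.ofMapLEIff (fun F => ⟨{i | p i ∈ F.1}, hC F⟩) ?_) ?_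
  · intro F F'
    exact idx_le_iff p F F'
  · rintro ⟨M, hM⟩
    obtain ⟨l, m, hl, hlM⟩ := H2 M hM
    have hl' : ∀ x ∈ convexHull ℝ (Set.range p), l x ≤ m := by
      apply hull_le
      rintro x ⟨i, rfl⟩
      exact hl i
    refine ⟨⟨_, exposed_of l m hl'⟩, ?_⟩
    apply Subtype.ext
    change {i | p i ∈ {x ∈ convexHull ℝ (Set.range p) | l x = m}} = M
    rw [← hlM]
    ext i
    change (p i ∈ convexHull ℝ (Set.range p) ∧ l (p i) = m) ↔ l (p i) = m
    exact ⟨fun h => h.2, fun h => ⟨subset_convexHull ℝ _ ⟨i, rfl⟩, h⟩⟩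

theorem faceIso_apply (p : ι → E) (C : Set ι → Prop) (H1) (H2)
    (F : Faces (convexHull ℝ (Set.range p))) :
    (faceIso p C H1 H2 F).1 = {i | p i ∈ F.1} := rfl

/-- every nonempty exposed face of a polytope contains a vertex -/
theorem exists_vertex (s : Set E) (hs : s.Finite) {F : Set E}
    (hF : IsExposed ℝ (convexHull ℝ s) F) (hne : F.Nonempty) :
    ∃ y ∈ F, IsExposed ℝ (convexHull ℝ s) {y} := by
  classical
  obtain ⟨l, m, hl, hFm⟩ := exists_of_exposed hF hne
  have h1 := face_eq_hull l m (fun x hx => hl x (subset_convexHull ℝ s hx))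
  have hne2 : {x ∈ s | l x = m}.Nonempty := by
    rw [← convexHull_nonempty_iff (𝕜 := ℝ), ← h1, ← hFm]
    exact hne
  have hfin : {x ∈ s | l x = m}.Finite := hs.subset (fun x hx => hx.1)
  obtain ⟨y, ⟨hys, hym⟩, hymax⟩ := Set.exists_max_image _ (fun x => ‖x‖) hfin hne2
  -- perturb the functional
  have hev : ∀ᶠ ε : ℝ in nhdsWithin 0 (Set.Ioi 0), ∀ t ∈ hs.toFinset, t ≠ y →
      l t + ε * inner ℝ y t < l y + ε * inner ℝ y y := by
    rw [Filter.eventually_all_finset]
    intro t ht
    rw [Set.Finite.mem_toFinset] at ht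
    by_cases hty : t = y
    · exact Filter.Eventually.of_forall (fun ε h => absurd hty h)
    rcases lt_or_eq_of_le (hl t (subset_convexHull ℝ s ht)) with hlt | heq
    · have hc : Filter.Tendsto (fun ε : ℝ => l t + ε * inner ℝ y t - (l y + ε * inner ℝ y y))
          (nhdsWithin 0 (Set.Ioi 0)) (nhds (l t + 0 * inner ℝ y t - (l y + 0 * inner ℝ y y))) := by
        apply Filter.Tendsto.mono_left _ nhdsWithin_le_nhds
        apply Continuous.tendsto
        fun_prop
      have hneg : l t + 0 * inner ℝ y t - (l y + 0 * inner ℝ y y) < 0 := by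
        rw [hym]; linarith
      filter_upwards [hc.eventually_lt_const hneg] with ε hε _
      linarith
    · have hlt2 : inner ℝ y t < (inner ℝ y y : ℝ) := by
        have hnorm : ‖t‖ ≤ ‖y‖ := hymax t ⟨ht, heq⟩
        have h3 : 0 < ‖y - t‖ ^ 2 := by
          have : y - t ≠ 0 := sub_ne_zero.2 (Ne.symm hty)
          positivity
        have h4 : ‖y - t‖ ^ 2 = ‖y‖ ^ 2 - 2 * inner ℝ y t + ‖t‖ ^ 2 := norm_sub_sq_real y t
        have h5 : ‖t‖ ^ 2 ≤ ‖y‖ ^ 2 := by
          have := norm_nonneg t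
          nlinarith
        rw [real_inner_self_eq_norm_sq]
        linarith
      filter_upwards [self_mem_nhdsWithin] with ε hε _
      have hε' : (0 : ℝ) < ε := hε
      rw [heq, hym]
      nlinarith
  obtain ⟨ε, hε⟩ := hev.exists
  set l' : E →L[ℝ] ℝ := l + ε • (innerSL ℝ y) with hl'
  have hval : ∀ x, l' x = l x + ε * inner ℝ y x := by
    intro x
    rw [hl']
    simp
  have hle : ∀ x ∈ s, l' x ≤ l' y := by
    intro x hx
    by_cases hxy : x = y
    · rw [hxy]
    · rw [hval, hval]
      exact (hε x (hs.mem_toFinset.2 hx) hxy).le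
  have hset : {x ∈ s | l' x = l' y} = {y} := by
    ext x
    constructor
    · rintro ⟨hx, hxy⟩
      by_contra hne
      have := hε x (hs.mem_toFinset.2 hx) hne
      rw [hval, hval] at hxy
      linarith
    · intro hx
      rw [Set.mem_singleton_iff] at hx
      rw [hx]
      exact ⟨hys, rfl⟩
  refine ⟨y, ?_, ?_⟩
  · rw [hFm]
    exact ⟨subset_convexHull ℝ s hys, hym⟩
  · have h6 := exposed_of l' (l' y) (hull_le l' (l' y) hle)
    rw [face_eq_hull l' (l' y) hle, hset, convexHull_singleton] at h6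
    exact h6

end W302.SP
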