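import Pool.Agent.W302.SP.Checks

set_option autoImplicit false

namespace W302.SP

/-- real dot product of an integer vector with a real vector -/
def rd (p : Fin 4 → ℤ) (l : Fin 4 → ℝ) : ℝ :=
  (p 0 : ℝ) * l 0 + (p 1 : ℝ) * l 1 + (p 2 : ℝ) * l 2 + (p 3 : ℝ) * l 3

/-- The cones over the 28 facets cover the positive orthant. -/
theorem star (l : Fin 4 → ℝ) (hl : ∀ i, 0 ≤ l i) :
    ∃ (G : Fin 28) (lam : Fin 4 → ℝ), (∀ k, 0 ≤ lam k) ∧
      ∀ i, l i = lam 0 * (gg (fac G 0) i : ℝ) + lam 1 * (gg (fac G 1) i : ℝ) +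
        lam 2 * (gg (fac G 2) i : ℝ) + lam 3 * (gg (fac G 3) i : ℝ) := by
  obtain ⟨G, hG⟩ := Finite.exists_min (fun G : Fin 28 => rd (nn G) l / (ww G : ℝ))
  have hw : ∀ G, (0 : ℝ) < (ww G : ℝ) := fun G => by exact_mod_cast ww_pos G
  have hD : ∀ k, (0 : ℝ) < (Dk G k : ℝ) := fun k => by exact_mod_cast Dk_pos G k
  have hdl : ∀ k, 0 ≤ rd (dd G k) l := by
    intro k
    rcases dd_spec G k with ⟨G', h⟩ | ⟨u, h⟩
    · have h1 := hG G'
      rw [div_le_div_iff₀ (hw G) (hw G')] at h1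
      have h2 : rd (dd G k) l = (ww G : ℝ) * rd (nn G') l - (ww G' : ℝ) * rd (nn G) l := by
        unfold rd
        rw [h 0, h 1, h 2, h 3]
        push_cast
        ring
      rw [h2]
      linarith
    · have h2 : rd (dd G k) l = l u := by
        unfold rd
        rw [h 0, h 1, h 2, h 3]
        fin_cases u <;> simp
      rw [h2]
      exact hl u
  refine ⟨G, fun k => rd (dd G k) l / (Dk G k : ℝ), fun k => div_nonneg (hdl k) (hD k).le, ?_⟩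
  intro i
  have h0 := hD 0
  have h1 := hD 1
  have h2 := hD 2
  have h3 := hD 3
  have key : ∀ j, (gg (fac G 0) i : ℝ) * dd G 0 j * (Dk G 1 * Dk G 2 * Dk G 3) +
      (gg (fac G 1) i : ℝ) * dd G 1 j * (Dk G 2 * Dk G 3 * Dk G 0) +
      (gg (fac G 2) i : ℝ) * dd G 2 j * (Dk G 3 * Dk G 0 * Dk G 1) +
      (gg (fac G 3) i : ℝ) * dd G 3 j * (Dk G 0 * Dk G 1 * Dk G 2) =
      if i = j then (Dk G 0 : ℝ) * Dk G 1 * Dk G 2 * Dk G 3 else 0 := by
    intro j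
    have h := inv_spec G i j
    have e0 : PD G 0 = Dk G 1 * Dk G 2 * Dk G 3 := rfl
    have e1 : PD G 1 = Dk G 2 * Dk G 3 * Dk G 0 := rfl
    have e2 : PD G 2 = Dk G 3 * Dk G 0 * Dk G 1 := rfl
    have e3 : PD G 3 = Dk G 0 * Dk G 1 * Dk G 2 := rfl
    rw [e0, e1, e2, e3] at h
    have h' : ((gg (fac G 0) i * dd G 0 j * (Dk G 1 * Dk G 2 * Dk G 3) +
      gg (fac G 1) i * dd G 1 j * (Dk G 2 * Dk G 3 * Dk G 0) +
      gg (fac G 2) i * dd G 2 j * (Dk G 3 * Dk G 0 * Dk G 1) +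
      gg (fac G 3) i * dd G 3 j * (Dk G 0 * Dk G 1 * Dk G 2) : ℤ) : ℝ) =
      ((if i = j then Dk G 0 * Dk G 1 * Dk G 2 * Dk G 3 else 0 : ℤ) : ℝ) := by
      exact_mod_cast h
    push_cast at h'
    exact h'
  have k0 := key 0
  have k1 := key 1
  have k2 := key 2
  have k3 := key 3
  have hsum : l i = ((if i = 0 then (1 : ℝ) else 0) * l 0 + (if i = 1 then (1 : ℝ) else 0) * l 1 +
      (if i = 2 then (1 : ℝ) else 0) * l 2 + (if i = 3 then (1 : ℝ) else 0) * l 3) := by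
    fin_cases i <;> simp
  have hP : (Dk G 0 : ℝ) * Dk G 1 * Dk G 2 * Dk G 3 ≠ 0 := by positivity
  have e : ∀ j, (if i = j then (1 : ℝ) else 0) * ((Dk G 0 : ℝ) * Dk G 1 * Dk G 2 * Dk G 3) =
      if i = j then (Dk G 0 : ℝ) * Dk G 1 * Dk G 2 * Dk G 3 else 0 := by
    intro j
    split_ifs <;> simp
  have f : ∀ j, (if i = j then (1 : ℝ) else 0) =
      ((gg (fac G 0) i : ℝ) * dd G 0 j * (Dk G 1 * Dk G 2 * Dk G 3) +
      (gg (fac G 1) i : ℝ) * dd G 1 j * (Dk G 2 * Dk G 3 * Dk G 0) +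
      (gg (fac G 2) i : ℝ) * dd G 2 j * (Dk G 3 * Dk G 0 * Dk G 1) +
      (gg (fac G 3) i : ℝ) * dd G 3 j * (Dk G 0 * Dk G 1 * Dk G 2)) /
      ((Dk G 0 : ℝ) * Dk G 1 * Dk G 2 * Dk G 3) := by
    intro j
    rw [eq_div_iff hP, e j, key j]
  rw [hsum, f 0, f 1, f 2, f 3]
  unfold rd
  field_simp
  ring

end W302.SP
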